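import Mathlib

/-!
Generic subsets of complex parameter spaces: sets that are locally cut out as the
non-vanishing locus of an entire function.
-/

namespace Pool.Agent.P.MP_098a67_ag

open Module Submodule

variable {E : Type*} [NormedAddCommGroup E] [NormedSpace ℂ E]

/-- A set that contains, around each of its points, the non-vanishing locus of an entire
function. -/
def Big (Ω : Set E) : Prop :=
  ∀ p ∈ Ω, ∃ f : E → ℂ, Differentiable ℂ f ∧ f p ≠ 0 ∧ ∀ q, f q ≠ 0 → q ∈ Ω

lemma Big.univ : Big (Set.univ : Set E) :=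
  fun _ _ => ⟨fun _ => 1, by fun_prop, one_ne_zero, fun _ _ => trivial⟩

lemma Big.inter {A B : Set E} (hA : Big A) (hB : Big B) : Big (A ∩ B) := by
  rintro p ⟨hpA, hpB⟩
  obtain ⟨f, hf, hfp, hfA⟩ := hA p hpA
  obtain ⟨g, hg, hgp, hgB⟩ := hB p hpB
  refine ⟨fun q => f q * g q, hf.mul hg, mul_ne_zero hfp hgp, fun q hq => ?_⟩
  exact ⟨hfA q (left_ne_zero_of_mul hq), hgB q (right_ne_zero_of_mul hq)⟩

lemma Big.preimage {E' : Type*} [NormedAddCommGroup E'] [NormedSpace ℂ E'] {A : Set E}
    (hA : Big A) {φ : E' → E} (hφ : Differentiable ℂ φ) : Big (φ ⁻¹' A) := by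
  intro p hp
  obtain ⟨f, hf, hfp, hfA⟩ := hA (φ p) hp
  exact ⟨f ∘ φ, hf.comp hφ, hfp, fun q hq => hfA _ hq⟩

lemma Big.inter_nonempty {A B : Set E} (hA : Big A) (hB : Big B) (ha : A.Nonempty)
    (hb : B.Nonempty) : (A ∩ B).Nonempty := by
  obtain ⟨p, hp⟩ := ha
  obtain ⟨q, hq⟩ := hb
  obtain ⟨f, hf, hfp, hfA⟩ := hA p hp
  obtain ⟨g, hg, hgq, hgB⟩ := hB q hq
  set l : ℂ → E := fun t => p + t • (q - p) with hl
  have hld : Differentiable ℂ l := by fun_prop
  have h1 : AnalyticOnNhd ℂ (f ∘ l) Set.univ := (hf.comp hld).differentiableOn.analyticOnNhd isOpen_univ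
  have h2 : AnalyticOnNhd ℂ (g ∘ l) Set.univ := (hg.comp hld).differentiableOn.analyticOnNhd isOpen_univ
  by_contra hne
  have hz : ∀ x ∈ (Set.univ : Set ℂ), (f ∘ l) x * (g ∘ l) x = 0 := by
    intro x _
    by_contra h
    exact hne ⟨l x, hfA _ (left_ne_zero_of_mul h), hgB _ (right_ne_zero_of_mul h)⟩
  rcases h1.eq_zero_or_eq_zero_of_mul_eq_zero h2 hz isPreconnected_univ with h | h
  · apply hfp
    simpa [hl] using h 0 trivial
  · apply hgq
    simpa [hl] using h 1 trivial

lemma Big.biInter {α : Type*} (s : Finset α) (A : α → Set E) (hA : ∀ a, Big (A a))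
    (hne : ∀ a, (A a).Nonempty) :
    Big (⋂ a ∈ s, A a) ∧ (⋂ a ∈ s, A a).Nonempty := by
  classical
  induction s using Finset.induction_on with
  | empty => simpa using Big.univ
  | insert a s _ ih =>
    rw [Finset.set_biInter_insert]
    exact ⟨(hA a).inter ih.1, (hA a).inter_nonempty ih.1 (hne a) ih.2⟩

lemma diff_prod {α : Type*} (u : Finset α) (g : α → E → ℂ) (hg : ∀ i ∈ u, Differentiable ℂ (g i)) :
    Differentiable ℂ (fun x => ∏ i ∈ u, g i x) := by
  classical
  exact fun x => (HasFDerivAt.finsetProd fun i hi => (hg i hi x).hasFDerivAt).differentiableAt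

variable {V : Type*} [NormedAddCommGroup V] [NormedSpace ℂ V] [FiniteDimensional ℂ V]

lemma big_rank {σ : Type*} (a : σ → E → V) (ha : ∀ s, Differentiable ℂ (a s)) (r : ℕ) :
    Big {x | r ≤ finrank ℂ (span ℂ (Set.range fun s => a s x))} := by
  classical
  intro p hp
  obtain ⟨κ, e, _, hsp, hli⟩ := exists_linearIndependent' ℂ (fun s => a s p)
  have : Finite κ := hli.finite
  let : Fintype κ := Fintype.ofFinite κ
  have hcard : r ≤ Fintype.card κ := by
    have := finrank_span_eq_card hli
    rw [hsp] at this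
    exact this ▸ hp
  obtain ⟨φ, hφ⟩ := LinearMap.exists_leftInverse_of_injective
    (Fintype.linearCombination ℂ ((fun s => a s p) ∘ e))
    (LinearMap.ker_eq_bot.mpr (linearIndependent_iff_injective_fintypeLinearCombination.mp hli))
  let M : E → Matrix κ κ ℂ := fun x => Matrix.of fun i j => φ (a (e i) x) j
  have hφc : Differentiable ℂ φ := (LinearMap.toContinuousLinearMap φ).differentiable
  refine ⟨fun x => (M x).det, ?_, ?_, ?_⟩
  · simp only [Matrix.det_apply, M, Matrix.of_apply]
    refine Differentiable.fun_sum fun σ' _ => ?_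
    refine Differentiable.const_smul ?_ _
    refine diff_prod _ _ fun i _ => ?_
    exact differentiable_pi.mp (hφc.comp (ha _)) i
  · have : M p = 1 := by
      ext i j
      have := congrArg (fun L => L (Pi.single i (1 : ℂ)) j) hφ
      simpa [M, Matrix.one_apply, Pi.single_apply, eq_comm] using this
    simp [this]
  · intro q hq
    have h1 : LinearIndependent ℂ (M q).row :=
      Matrix.linearIndependent_rows_iff_isUnit.mpr
        ((Matrix.isUnit_iff_isUnit_det _).mpr (Ne.isUnit hq))
    have h2 : LinearIndependent ℂ (fun i => a (e i) q) :=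
      LinearIndependent.of_comp φ h1
    have h3 := finrank_span_eq_card h2
    show r ≤ _
    refine hcard.trans (h3 ▸ Submodule.finrank_mono (span_mono ?_))
    rintro _ ⟨i, rfl⟩
    exact ⟨e i, rfl⟩

end Pool.Agent.P.MP_098a67_ag
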