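import Pool.Agent.P.MP_098a67_ag.Tensor

/-!
Spanning families of tangent spaces, and the Kronecker product with a group tensor.
-/

namespace Pool.Agent.P.MP_098a67_ag

open Module Submodule Function

variable {ι : Type} [Fintype ι] [DecidableEq ι] {κ : ι → Type} [∀ i, Fintype (κ i)]
  [∀ i, DecidableEq (κ i)]

/-- A matrix acting on one factor. -/
def act (i : ι) (g : Matrix (κ i) (κ i) ℂ) : ((∀ i, κ i) → ℂ) →ₗ[ℂ] ((∀ i, κ i) → ℂ) where
  toFun X := fun j => ∑ b, g (j i) b * X (update j i b)
  map_add' X Y := by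
    funext j
    simp [mul_add, Finset.sum_add_distrib]
  map_smul' c X := by
    funext j
    simp [Finset.mul_sum, mul_left_comm]

omit [Fintype ι] [∀ i, DecidableEq (κ i)] in
lemma act_apply (i : ι) (g : Matrix (κ i) (κ i) ℂ) (X : (∀ i, κ i) → ℂ) (j : ∀ i, κ i) :
    act i g X j = ∑ b, g (j i) b * X (update j i b) := rfl

omit [Fintype ι] [∀ i, DecidableEq (κ i)] in
lemma act_mul (i : ι) (g h : Matrix (κ i) (κ i) ℂ) (X : (∀ i, κ i) → ℂ) :
    act i g (act i h X) = act i (g * h) X := by
  funext j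
  simp only [act_apply, update_self, update_idem, Matrix.mul_apply, Finset.mul_sum,
    Finset.sum_mul]
  rw [Finset.sum_comm]
  simp [mul_assoc]

omit [Fintype ι] in
lemma act_one (i : ι) (X : (∀ i, κ i) → ℂ) : act i (1 : Matrix (κ i) (κ i) ℂ) X = X := by
  funext j
  simp [act_apply, Matrix.one_apply]

omit [∀ i, DecidableEq (κ i)] in
lemma act_pure (i : ι) (g : Matrix (κ i) (κ i) ℂ) (x : ∀ i, κ i → ℂ) :
    act i g (pure x) = pure (update x i (g.mulVec (x i))) := by
  funext j
  rw [act_apply, pure_update]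
  simp only [Matrix.mulVec, dotProduct, Finset.sum_mul]
  refine Finset.sum_congr rfl fun b _ => ?_
  rw [pure_eq _ i, update_self, mul_assoc]
  congr 2
  refine Finset.prod_congr rfl fun l hl => ?_
  rw [update_of_ne (Finset.ne_of_mem_erase hl)]

lemma map_act_le (L : Finset ι) (i : ι) (g : Matrix (κ i) (κ i) ℂ) (x : ∀ i, κ i → ℂ) :
    (T (tv L) x).map (act i g) ≤ T (tv L) (update x i (g.mulVec (x i))) := by
  rw [Submodule.map_le_iff_le_comap]
  conv_lhs => unfold T
  rw [span_le]
  rintro _ ⟨⟨⟨l, hL⟩, b⟩, rfl⟩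
  show act i g (pure _) ∈ T (tv L) _
  rw [act_pure]
  by_cases hl : l = i
  · subst hl
    have := pure_update_mem (update x l (g.mulVec (x l))) hL (g.mulVec (Pi.single b 1))
    simpa using this
  · have := pure_update_mem (update x i (g.mulVec (x i))) hL (Pi.single b 1)
    rw [update_comm (Ne.symm hl)] at this
    simpa [update_of_ne (Ne.symm hl)] using this

lemma irreducible (U : Submodule ℂ ((∀ i, κ i) → ℂ)) (hU : U ≠ ⊥)
    (h : ∀ (i : ι) (a b : κ i), U.map (act i (1 + Matrix.single a b 1)) ≤ U) : U = ⊤ := by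
  obtain ⟨u, hu, hu0⟩ := Submodule.exists_mem_ne_zero_of_ne_bot hU
  obtain ⟨j0, hj0⟩ := Function.ne_iff.mp hu0
  have h1 : ∀ (i : ι) (a b : κ i), ∀ X ∈ U,
      (fun j => if j i = a then X (update j i b) else 0) ∈ U := by
    intro i a b X hX
    have h2 := U.sub_mem (h i a b ⟨X, hX, rfl⟩) hX
    convert h2 using 1
    funext j
    simp only [Pi.sub_apply, act_apply, Matrix.add_apply, add_mul, Finset.sum_add_distrib,
      Matrix.one_apply, Matrix.single_apply]
    by_cases hj : j i = a
    · simp [hj.symm]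
    · simp [hj, Ne.symm hj]
  have h3 : ∀ (j1 : ∀ i, κ i) (s : Finset ι),
      (fun j => if ∀ i ∈ s, j i = j1 i then u (s.piecewise j0 j) else 0) ∈ U := by
    intro j1 s
    induction s using Finset.induction_on with
    | empty => simpa using hu
    | insert i s hi ih =>
      convert h1 i (j1 i) (j0 i) _ ih using 2 with j
      have e1 : (∀ l ∈ s, update j i (j0 i) l = j1 l) ↔ ∀ l ∈ s, j l = j1 l := by
        refine forall₂_congr fun l hl => ?_
        rw [update_of_ne (ne_of_mem_of_not_mem hl hi)]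
      have e2 : s.piecewise j0 (update j i (j0 i)) = (insert i s).piecewise j0 j := by
        funext l
        by_cases hl : l = i
        · subst hl
          simp [hi]
        · by_cases hls : l ∈ s
          · simp [hls]
          · simp [hls, hl]
      simp only [Finset.forall_mem_insert, e1, e2]
      by_cases h4 : j i = j1 i <;> simp [h4]
  rw [← top_le_iff]
  intro X _
  have : X = ∑ j1, (X j1 / u j0) • fun j => if ∀ i ∈ (Finset.univ : Finset ι), j i = j1 i then
      u ((Finset.univ : Finset ι).piecewise j0 j) else 0 := by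
    funext j
    have h5 : u j0 ≠ 0 := hj0
    simp [Finset.sum_apply, ← funext_iff, h5]
  rw [this]
  exact U.sum_mem fun j1 _ => U.smul_mem _ (h3 j1 _)

/-- A spanning family of tangent spaces of nearly the expected size. -/
theorem exists_spanning_tv [∀ i, Nonempty (κ i)] (L : Finset ι)
    (hpos : 0 < ∑ i ∈ L, (Fintype.card (κ i) - 1)) :
    ∃ g, g ≤ (∏ i, Fintype.card (κ i)) / (∑ i ∈ L, (Fintype.card (κ i) - 1))
        + ∑ i ∈ L, Fintype.card (κ i) ∧
      ∃ x : Fin g → ∀ i, κ i → ℂ, W (tv L) x Finset.univ = ⊤ := by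
  have := exists_spanning (a := tv (κ := κ) L) (tv_differentiable L)
    {γ | ∃ (i : ι) (a b : κ i), γ = act (κ := κ) i (1 + Matrix.single a b 1)} ?_
    (fun U hU h => irreducible U hU fun i a b =>
      h (act i (1 + Matrix.single a b 1)) (Set.mem_ofPred_eq ▸ ⟨i, a, b, rfl⟩))
    (∑ i ∈ L, (Fintype.card (κ i) - 1)) (∑ i ∈ L, Fintype.card (κ i)) hpos ?_ ?_
  · simpa [Module.finrank_pi_fintype] using this
  · rintro _ ⟨i, a, b, rfl⟩
    have hu : IsUnit (1 + Matrix.single a b (1 : ℂ)) := by
      by_cases hab : a = b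
      · subst hab
        refine IsUnit.of_mul_eq_one (1 - (1 / 2 : ℂ) • Matrix.single a a 1) ?_
        simp only [mul_sub, add_mul, mul_one, one_mul, Matrix.mul_smul,
          Matrix.single_mul_single_same]
        module
      · refine IsUnit.of_mul_eq_one (1 - Matrix.single a b 1) ?_
        simp [mul_sub, add_mul, Matrix.single_mul_single_of_ne _ _ _ _ (Ne.symm hab)]
    obtain ⟨g, hg⟩ := hu
    refine ⟨act i g.inv, fun x => update x i (g.inv.mulVec (x i)), ?_, fun x =>
      ⟨map_act_le _ _ _ _, ?_⟩⟩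
    · refine LeftInverse.injective (g := act i g.val) fun X => ?_
      rw [act_mul, g.val_inv, act_one]
    · refine (map_act_le _ _ _ _).trans (le_of_eq ?_)
      beta_reduce
      rw [← hg, update_self, update_idem, Matrix.mulVec_mulVec, g.val_inv, Matrix.one_mulVec,
        update_eq_self]
  · let o : ∀ i, κ i := fun i => Classical.arbitrary _
    refine ⟨fun i => Pi.single (o i) 1, ?_⟩
    let f : (Σ i : L, {a : κ i // a ≠ o i}) → ∀ i, κ i := fun p => update o p.1 p.2.1
    have hf : Injective f := by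
      rintro ⟨⟨i, hiL⟩, a, ha⟩ ⟨⟨i', hiL'⟩, a', ha'⟩ h
      by_cases hi : i = i'
      · subst hi
        have : a = a' := by simpa [f] using congrFun h i
        subst this
        rfl
      · exact absurd (by simpa [f, update_of_ne hi] using congrFun h i) ha
    have hli : LinearIndependent ℂ fun p => (Pi.single (f p) 1 : (∀ i, κ i) → ℂ) :=
      (Pi.linearIndependent_single_one _ ℂ).comp f hf
    have h1 := finrank_span_eq_card hli
    have h2 : Fintype.card (Σ i : L, {a : κ i // a ≠ o i})
        = ∑ i ∈ L, (Fintype.card (κ i) - 1) := by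
      rw [← Finset.sum_coe_sort L]
      simp
    rw [← h2, ← h1]
    refine Submodule.finrank_mono (span_mono ?_)
    rintro _ ⟨⟨⟨i, hiL⟩, a, ha⟩, rfl⟩
    refine ⟨⟨⟨i, hiL⟩, a⟩, ?_⟩
    funext j
    simp only [tv, pure, f]
    by_cases hj : j = update o i a
    · subst hj
      rw [Pi.single_eq_same]
      refine Finset.prod_eq_one fun l _ => ?_
      by_cases hl : l = i
      · subst hl
        simp
      · simp [update_of_ne hl]
    · rw [Pi.single_eq_of_ne hj]
      obtain ⟨l, hl'⟩ := Function.ne_iff.mp hj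
      refine Finset.prod_eq_zero (Finset.mem_univ l) ?_
      by_cases hl : l = i
      · subst hl
        simp only [update_self] at hl' ⊢
        exact Pi.single_eq_of_ne hl' _
      · simp only [update_of_ne hl] at hl' ⊢
        exact Pi.single_eq_of_ne hl' _
  · intro x
    have := finrank_range_le_card (R := ℂ) fun s : Σ i : L, κ i => tv L s x
    rw [Fintype.card_sigma, Finset.sum_coe_sort L fun i => Fintype.card (κ i)] at this
    exact this

/-- Placing a tensor in the block with label `z`. -/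
def blk {H : ι → Type} [∀ i, DecidableEq (H i)] (z : ∀ i, H i) :
    ((∀ i, κ i) → ℂ) →ₗ[ℂ] ((∀ i, κ i × H i) → ℂ) where
  toFun X := fun j => X (fun i => (j i).1) * ∏ i, if (j i).2 = z i then 1 else 0
  map_add' X Y := by
    funext j
    simp [add_mul]
  map_smul' c X := by
    funext j
    simp [mul_assoc]

omit [DecidableEq ι] [∀ i, Fintype (κ i)] [∀ i, DecidableEq (κ i)] in
lemma blk_pure {H : ι → Type} [∀ i, DecidableEq (H i)] (z : ∀ i, H i) (x : ∀ i, κ i → ℂ) :
    blk z (pure x) = pure fun i (p : κ i × H i) => x i p.1 * if p.2 = z i then 1 else 0 := by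
  funext j
  simp only [blk, pure, LinearMap.coe_mk, AddHom.coe_mk, Finset.prod_mul_distrib]

/-- The Kronecker step. -/
theorem kron_step {G : Type} [AddCommGroup G] [Fintype G] [DecidableEq G] {g : ℕ}
    (L : Finset ι) (hL : L.Nonempty) (x : Fin g → ∀ i, κ i → ℂ)
    (hx : W (tv L) x Finset.univ = ⊤) (X : (∀ i, κ i × {c : G // i ∉ L → c = 0}) → ℂ) :
    RankLE X (g * (Fintype.card G ^ (L.card - 1) + Fintype.card G)) := by
  classical
  obtain ⟨i0, hi0⟩ := hL
  have : Nonempty ι := ⟨i0⟩
  let x' : Fin g × {z : ∀ i, {c : G // i ∉ L → c = 0} // ∑ i, (z i).1 = 0} →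
      ∀ i, κ i × {c : G // i ∉ L → c = 0} → ℂ :=
    fun q i p => x q.1 i p.1 * if p.2 = q.2.1 i then 1 else 0
  have hx' : W (tv L) x' Finset.univ = ⊤ := by
    have h1 : ∀ (z : ∀ i, {c : G // i ∉ L → c = 0}) (Y : (∀ i, κ i) → ℂ),
        blk z Y ∈ W (tv L) x' Finset.univ := by
      intro z Y
      have : W (tv L) x Finset.univ ≤ (W (tv L) x' Finset.univ).comap (blk z) := by
        rw [W_le_iff]
        intro k _
        conv_lhs => unfold T
        rw [span_le]
        rintro _ ⟨⟨⟨i, hi⟩, b⟩, rfl⟩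
        show blk z (pure _) ∈ W (tv L) x' Finset.univ
        let z' : {z : ∀ i, {c : G // i ∉ L → c = 0} // ∑ i, (z i).1 = 0} :=
          ⟨update z i ⟨-∑ l ∈ Finset.univ.erase i, (z l).1, fun h => absurd hi h⟩, by
            rw [← Finset.add_sum_erase _ (fun l => (update z i _ l).1) (Finset.mem_univ i),
              update_self, neg_add_eq_zero]
            exact Finset.sum_congr rfl fun l hl => by
              rw [update_of_ne (Finset.ne_of_mem_erase hl)]⟩
        refine T_le_W (tv L) x' (Finset.mem_univ (k, z')) ?_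
        have := pure_update_mem (x' (k, z')) hi
          (fun p => (Pi.single b 1 : κ i → ℂ) p.1 * if p.2 = z i then 1 else 0)
        rw [blk_pure]
        convert this using 2
        funext l
        by_cases hl : l = i
        · subst hl
          simp
        · simp [update_of_ne hl, x', z']
      exact this (hx ▸ Submodule.mem_top)
    rw [← top_le_iff]
    intro Y _
    have : Y = ∑ z : ∀ i, {c : G // i ∉ L → c = 0}, blk z fun j => Y fun i => (j i, z i) := by
      funext j
      simp only [Finset.sum_apply, blk, LinearMap.coe_mk, AddHom.coe_mk]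
      rw [Finset.sum_eq_single fun i => (j i).2]
      · simp
      · intro z _ hz
        obtain ⟨l, hl⟩ := Function.ne_iff.mp hz
        rw [Finset.prod_eq_zero (Finset.mem_univ l) (if_neg (Ne.symm hl)), mul_zero]
      · simp
    rw [this]
    exact Submodule.sum_mem _ fun z _ => h1 z _
  have hr : RankLE (∑ q, pure (x' q)) (g * Fintype.card G) := by
    have := (rankLE_of_fintype
      fun (q : Fin g × AddChar G ℂ) i (p : κ i × {c : G // i ∉ L → c = 0}) =>
        x q.1 i p.1 * q.2 p.2.1).smul (Fintype.card G : ℂ)⁻¹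
    rw [Fintype.card_prod, Fintype.card_fin, AddChar.card_eq] at this
    convert this using 1
    funext j
    simp only [Fintype.sum_prod_type, Finset.sum_apply, Pi.smul_apply, smul_eq_mul, pure, x',
      Finset.prod_mul_distrib, Finset.mul_sum]
    refine Finset.sum_congr rfl fun k _ => ?_
    have e1 : ∀ ψ : AddChar G ℂ, ∏ i, ψ (j i).2.1 = ψ (∑ i, (j i).2.1) := fun ψ => by
      have := map_prod ψ.toMonoidHom (fun i => Multiplicative.ofAdd (j i).2.1) Finset.univ
      simpa [← ofAdd_sum] using this.symm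
    have e2 : (Fintype.card G : ℂ) ≠ 0 := by exact_mod_cast Fintype.card_ne_zero
    simp only [e1, ← Finset.mul_sum, AddChar.sum_apply_eq_ite]
    by_cases hs : ∑ i, (j i).2.1 = 0
    · rw [if_pos hs, Finset.sum_eq_single ⟨fun i => (j i).2, hs⟩]
      · simp only [if_true, Finset.prod_const_one]
        field_simp
      · intro z _ hz
        have : z.1 ≠ fun i => (j i).2 := fun h => hz (Subtype.ext h)
        obtain ⟨l, hl⟩ := Function.ne_iff.mp this
        exact Finset.prod_eq_zero (Finset.mem_univ l) (if_neg (Ne.symm hl))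
      · simp
    · rw [if_neg hs, Finset.sum_eq_zero]
      · simp
      · intro z _
        have : z.1 ≠ fun i => (j i).2 := fun h => hs (by simpa [h] using z.2)
        obtain ⟨l, hl⟩ := Function.ne_iff.mp this
        exact Finset.prod_eq_zero (Finset.mem_univ l) (if_neg (Ne.symm hl))
  refine (rankLE_of_spanning x' hx' hr X).mono ?_
  rw [mul_add, Fintype.card_prod, Fintype.card_fin]
  refine add_le_add_left (Nat.mul_le_mul_left _ ?_) _
  have h2 : Fintype.card (L.erase i0 → G) = Fintype.card G ^ (L.card - 1) := by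
    rw [Fintype.card_fun, Fintype.card_coe, Finset.card_erase_of_mem hi0]
  rw [← h2]
  refine Fintype.card_le_of_injective (fun z l => (z.1 l.1).1) ?_
  rintro ⟨z, hz⟩ ⟨z', hz'⟩ h
  have h3 : ∀ l, l ≠ i0 → (z l).1 = (z' l).1 := by
    intro l hl
    by_cases hlL : l ∈ L
    · exact congrFun h ⟨l, Finset.mem_erase.mpr ⟨hl, hlL⟩⟩
    · rw [(z l).2 hlL, (z' l).2 hlL]
  ext l
  by_cases hl : l = i0
  · subst hl
    rw [← Finset.add_sum_erase _ _ (Finset.mem_univ l)] at hz hz'
    rw [Finset.sum_congr rfl fun m hm => h3 m (Finset.ne_of_mem_erase hm)] at hz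
    exact add_right_cancel (hz.trans hz'.symm)
  · exact h3 l hl

/-- The main inequality. -/
theorem core (L : Finset ι) (n t : ι → ℕ) (s : ℕ) (hn : ∀ i, 0 < n i)
    (hnt : ∀ i ∈ L, n i ≤ t i * s) (hnt' : ∀ i ∉ L, n i ≤ t i)
    (hpos : 0 < ∑ i ∈ L, (t i - 1)) (X : (∀ i, Fin (n i)) → ℂ) :
    RankLE X (((∏ i, t i) / (∑ i ∈ L, (t i - 1)) + ∑ i ∈ L, t i) * (s ^ (L.card - 1) + s)) := by
  have hL : L.Nonempty := Finset.nonempty_of_sum_ne_zero hpos.ne'
  obtain ⟨i0, hi0⟩ := id hL
  have : Nonempty ι := ⟨i0⟩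
  have hs : 0 < s := Nat.pos_of_mul_pos_left ((hn i0).trans_le (hnt i0 hi0))
  have : NeZero s := ⟨hs.ne'⟩
  have : ∀ i, Nonempty (Fin (t i)) := fun i => by
    refine ⟨⟨0, ?_⟩⟩
    by_cases hi : i ∈ L
    · exact Nat.pos_of_mul_pos_right ((hn i).trans_le (hnt i hi))
    · exact (hn i).trans_le (hnt' i hi)
  have : ∀ i, Nonempty (Fin (n i)) := fun i => ⟨⟨0, hn i⟩⟩
  obtain ⟨g, hg, x, hx⟩ := exists_spanning_tv (κ := fun i => Fin (t i)) L (by simpa using hpos)
  have h1 := kron_step (G := ZMod s) L hL x hx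
  have h2 : ∀ i, Nonempty (Fin (n i) ↪ Fin (t i) × {c : ZMod s // i ∉ L → c = 0}) := by
    intro i
    refine Function.Embedding.nonempty_of_card_le ?_
    by_cases hi : i ∈ L
    · simpa [hi] using hnt i hi
    · simpa [hi] using hnt' i hi
  let f : ∀ i, Fin (n i) ↪ Fin (t i) × {c : ZMod s // i ∉ L → c = 0} := fun i => (h2 i).some
  refine (rankLE_restrict (fun i => f i) (fun i => invFun (f i))
    (fun i a => leftInverse_invFun (f i).injective a) h1 X).mono ?_
  rw [ZMod.card]
  exact Nat.mul_le_mul_right _ (by simpa using hg)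

end Pool.Agent.P.MP_098a67_ag
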