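import Pool.Agent.P.MP_098a67_ag.Tensor

/-!
The dimension count with the exact dimension of the cone of rank-one tensors.
-/

namespace Pool.Agent.P.MP_098a67_ag

open Module Function

lemma exists_chart {α : Type} [Nonempty α] [DecidableEq α] (v : α → ℂ) :
    ∃ o, ∀ a, v a = v o * if a = o then 1 else v a / v o := by
  by_cases h : ∃ o, v o ≠ 0
  · obtain ⟨o, ho⟩ := h
    refine ⟨o, fun a => ?_⟩
    split_ifs with ha
    · rw [ha, mul_one]
    · rw [mul_div_cancel₀ _ ho]
  · push Not at h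
    exact ⟨Classical.arbitrary α, fun a => by rw [h, h, zero_mul]⟩

variable {ι : Type} [Fintype ι] [DecidableEq ι] {κ : ι → Type} [∀ i, Fintype (κ i)]
  [∀ i, DecidableEq (κ i)]

lemma lower_sharp [∀ i, Nonempty (κ i)] {r : ℕ} (h : ∀ X : (∀ i, κ i) → ℂ, RankLE X r) :
    ∏ l, Fintype.card (κ l) ≤ r * (1 + ∑ l, (Fintype.card (κ l) - 1)) := by
  let Φ : ∀ o : Fin r → ∀ i, κ i,
      (∀ k, ℂ × ∀ i, {a : κ i // a ≠ o k i} → ℂ) → (∀ i, κ i) → ℂ := fun o y j =>
    ∑ k, (y k).1 * ∏ i, if hj : j i = o k i then 1 else (y k).2 i ⟨j i, hj⟩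
  have hΦ : ∀ o, ContDiff ℝ 1 (Φ o) := fun o => by
    have hk : ∀ k, ContDiff ℝ 1 fun y : ∀ k, ℂ × ∀ i, {a : κ i // a ≠ o k i} → ℂ => y k :=
      contDiff_pi.1 contDiff_id
    refine contDiff_pi.2 fun j => ContDiff.sum fun k _ => ContDiff.mul (hk k).fst ?_
    refine contDiff_prod fun i _ => ?_
    split_ifs
    · exact contDiff_const
    · exact contDiff_pi.1 (contDiff_pi.1 (hk k).snd i) _
  have hU : (Set.univ : Set ((∀ i, κ i) → ℂ)) = ⋃ o, Set.range (Φ o) := by
    refine (Set.eq_univ_of_forall fun X => ?_).symm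
    obtain ⟨v, rfl⟩ := h X
    choose o ho using fun k i => exists_chart (v k i)
    refine Set.mem_iUnion.2 ⟨o, fun k => (∏ i, v k i (o k i), fun i a => v k i a / v k i (o k i)),
      funext fun j => ?_⟩
    simp only [Φ, Finset.sum_apply, pure, ← Finset.prod_mul_distrib, dite_eq_ite]
    exact Finset.sum_congr rfl fun k _ => Finset.prod_congr rfl fun i _ => (ho k i (j i)).symm
  have h1 := Real.dimH_univ_eq_finrank ((∀ i, κ i) → ℂ)
  rw [hU, dimH_iUnion] at h1
  have h2 : ((finrank ℝ ((∀ i, κ i) → ℂ) : ℕ) : ENNReal) ≤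
      ((r * (2 + ∑ l, (Fintype.card (κ l) - 1) * 2) : ℕ) : ENNReal) := by
    rw [← h1]
    refine iSup_le fun o => (hΦ o).dimH_range_le.trans (le_of_eq ?_)
    simp [Module.finrank_pi_fintype, Module.finrank_prod]
  have h3 := Nat.cast_le.1 h2
  simp only [Module.finrank_pi_fintype, Complex.finrank_real_complex, Finset.sum_const,
    Finset.card_univ, smul_eq_mul, Fintype.card_pi, ← Finset.sum_mul] at h3
  nlinarith

end Pool.Agent.P.MP_098a67_ag
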