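import Pool.Agent.P.MP_098a67_ag.Kron

/-!
Asymptotics of the maximal rank.
-/

namespace Pool.Agent.P.MP_098a67_ag

open Finset

lemma exists_eta (d : ℕ) (ε c σ : ℝ) (hσ : σ < ε) :
    ∃ η : ℝ, 0 < η ∧ η < 1 ∧ (1 + σ) * ((1 + η) ^ d / (1 - η) + c * η) ≤ 1 + ε := by
  have hc : ContinuousAt (fun η : ℝ => (1 + σ) * ((1 + η) ^ d / (1 - η) + c * η)) 0 := by
    refine ContinuousAt.mul continuousAt_const (ContinuousAt.add (ContinuousAt.div ?_ ?_ ?_) ?_)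
    · fun_prop
    · fun_prop
    · simp
    · fun_prop
  have h1 : ∀ᶠ η in nhds (0 : ℝ), (1 + σ) * ((1 + η) ^ d / (1 - η) + c * η) < 1 + ε :=
    hc.eventually_lt continuousAt_const (by simpa using hσ)
  have h2 : ∀ᶠ η in nhds (0 : ℝ), η < 1 := eventually_lt_nhds one_pos
  have h3 : ∀ᶠ η in nhdsWithin (0 : ℝ) (Set.Ioi 0),
      ((1 + σ) * ((1 + η) ^ d / (1 - η) + c * η) < 1 + ε ∧ η < 1) ∧ η ∈ Set.Ioi (0 : ℝ) :=
    ((h1.and h2).filter_mono nhdsWithin_le_nhds).and self_mem_nhdsWithin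
  obtain ⟨η, ⟨h4, h5⟩, h6⟩ := h3.exists
  exact ⟨η, h6, h5, h4.le⟩

lemma balanced {d : ℕ} (n : Fin d → ℕ) (hn : ∀ i, 1 ≤ n i) (s ν K : ℕ) (η : ℝ) (hs : 0 < s)
    (hη : 0 < η) (hη1 : η < 1) (hsν : (s : ℝ) ≤ η * ν) (hS : 2 * d * ν ≤ η * ∑ i, (n i : ℝ))
    (h3 : 3 ≤ (univ.filter fun i => ν ≤ n i).card) (i1 i2 : Fin d) (h12 : i2 ≠ i1)
    (hmax : ∀ i, n i ≤ n i1) (hK : n i1 ≤ K * n i2) (hi2 : ν ≤ n i2) :
    ∃ r : ℕ, (∀ X : (∀ i, Fin (n i)) → ℂ, RankLE X r) ∧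
      (r : ℝ) * ∑ i, (n i : ℝ) ≤ (1 + 1 / s) *
        ((1 + η) ^ d / (1 - η) + 2 * d ^ 2 * K * η) * ∏ i, (n i : ℝ) := by
  set L := univ.filter fun i => ν ≤ n i with hL
  have hmem : ∀ i, i ∈ L ↔ ν ≤ n i := fun i => by simp [hL]
  set t : Fin d → ℕ := fun i => if i ∈ L then n i / s + 1 else n i with ht
  set S : ℝ := ∑ i, (n i : ℝ) with hSdef
  set P : ℝ := ∏ i, (n i : ℝ) with hPdef
  have hsR : (0 : ℝ) < s := by exact_mod_cast hs
  have hνR : (s : ℝ) ≤ ν := hsν.trans (by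
    have : (0 : ℝ) ≤ ν := Nat.cast_nonneg _
    nlinarith)
  have hsν' : s ≤ ν := by exact_mod_cast hνR
  have hi1 : i1 ∈ L := (hmem _).mpr (hi2.trans (hmax _))
  have hi2' : i2 ∈ L := (hmem _).mpr hi2
  have hup : ∀ i ∈ L, t i * s ≤ n i + s := by
    intro i hi
    simp only [ht, if_pos hi, add_mul, one_mul]
    exact Nat.add_le_add_right (Nat.div_mul_le_self _ _) _
  have hlow : ∀ i ∈ L, n i ≤ (t i - 1) * s + s := by
    intro i hi
    simp only [ht, if_pos hi, Nat.add_sub_cancel]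
    exact (Nat.lt_div_mul_add hs).le
  have hlow' : ∀ i ∈ L, n i ≤ t i * s := by
    intro i hi
    simp only [ht, if_pos hi, add_mul, one_mul]
    exact (Nat.lt_div_mul_add hs).le
  have hpos : 0 < ∑ i ∈ L, (t i - 1) := by
    refine lt_of_lt_of_le ?_ (single_le_sum (f := fun i => t i - 1) (fun _ _ => Nat.zero_le _) hi1)
    simp only [ht, if_pos hi1, Nat.add_sub_cancel]
    exact Nat.div_pos (hsν'.trans ((hmem _).mp hi1)) hs
  refine ⟨_, core L n t s hn hlow' (fun i hi => by simp [ht, hi]) hpos, ?_⟩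
  set N0 := ∑ i ∈ L, (t i - 1) with hN0
  set N1 := ∑ i ∈ L, t i with hN1
  set M := ∏ i, t i with hM
  obtain ⟨l, hl⟩ : ∃ l, L.card = l + 3 := ⟨L.card - 3, by omega⟩
  have hSpos : 0 < S := by
    refine lt_of_lt_of_le ?_ (single_le_sum (f := fun i => (n i : ℝ))
      (fun _ _ => Nat.cast_nonneg _) (mem_univ i1))
    exact_mod_cast hn i1
  have hPpos : 0 ≤ P := prod_nonneg fun _ _ => Nat.cast_nonneg _
  have hN0pos : (0 : ℝ) < N0 := by exact_mod_cast hpos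
  -- the product of the reduced dimensions
  have hA : (M : ℝ) * s ^ (l + 3) ≤ (1 + η) ^ d * P := by
    have e1 : (M : ℝ) * s ^ (l + 3) = ∏ i, ((t i : ℝ) * if i ∈ L then (s : ℝ) else 1) := by
      rw [prod_mul_distrib, prod_ite_mem, univ_inter, prod_const, hl, hM]
      push_cast
      rfl
    have e2 : (1 + η) ^ d * P = ∏ i, ((1 + η) * (n i : ℝ)) := by
      rw [prod_mul_distrib, prod_const, card_univ, Fintype.card_fin]
    rw [e1, e2]
    refine prod_le_prod (fun i _ => by positivity) fun i _ => ?_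
    have h0 : (0 : ℝ) ≤ n i := Nat.cast_nonneg _
    by_cases hi : i ∈ L
    · rw [if_pos hi]
      have h1 : (t i : ℝ) * s ≤ n i + s := by exact_mod_cast hup i hi
      have h2 : (ν : ℝ) ≤ n i := by exact_mod_cast (hmem i).mp hi
      nlinarith
    · simp only [ht, if_neg hi]
      nlinarith
  -- the expected dimension
  have hB : (1 - η) * S ≤ N0 * s := by
    have h1 : ∑ i, n i ≤ N0 * s + 2 * d * ν := by
      have e1 : N0 * s = ∑ i, if i ∈ L then (t i - 1) * s else 0 := by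
        rw [sum_ite_mem, univ_inter, hN0, sum_mul]
      have e2 : 2 * d * ν = ∑ _i : Fin d, 2 * ν := by
        rw [sum_const, card_univ, Fintype.card_fin, smul_eq_mul]
        ring
      rw [e1, e2, ← sum_add_distrib]
      refine sum_le_sum fun i _ => ?_
      by_cases hi : i ∈ L
      · rw [if_pos hi]
        have := hlow i hi
        omega
      · rw [if_neg hi]
        have := (hmem i).not.mp hi
        omega
    have h2 : S ≤ N0 * s + 2 * d * ν := by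
      rw [hSdef]
      exact_mod_cast h1
    linarith
  have hC : (N1 : ℝ) * s ≤ 2 * S := by
    have h1 : N1 * s ≤ 2 * ∑ i, n i := by
      rw [hN1, sum_mul, mul_sum]
      refine le_trans (sum_le_sum (g := fun i => 2 * n i) fun i hi => ?_)
        (sum_le_sum_of_subset (subset_univ _))
      have := hup i hi
      have := (hmem i).mp hi
      omega
    rw [hSdef]
    exact_mod_cast h1
  have hD : S ^ 2 * s ^ (l + 1) ≤ d ^ 2 * K * η * P := by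
    have h1 : ∑ i, n i ≤ d * n i1 := by
      have := sum_le_card_nsmul univ n (n i1) fun i _ => hmax i
      simpa using this
    have h2 : n i1 * (n i2 * ν ^ (l + 1)) ≤ ∏ i, n i := by
      have hm : i2 ∈ L.erase i1 := mem_erase.mpr ⟨h12, hi2'⟩
      refine le_trans ?_ (prod_le_prod_of_subset_of_one_le' (subset_univ L) fun i _ _ => hn i)
      rw [← mul_prod_erase _ _ hi1, ← mul_prod_erase _ _ hm]
      refine Nat.mul_le_mul_left _ (Nat.mul_le_mul_left _ ?_)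
      have hc : ((L.erase i1).erase i2).card = l + 1 := by
        rw [card_erase_of_mem hm, card_erase_of_mem hi1, hl]
        rfl
      rw [← hc]
      exact pow_card_le_prod _ _ _ fun i hi =>
        (hmem i).mp (mem_of_mem_erase (mem_of_mem_erase hi))
    have h3 : (∑ i, n i) ^ 2 * ν ^ (l + 1) ≤ d ^ 2 * K * ∏ i, n i := by
      calc (∑ i, n i) ^ 2 * ν ^ (l + 1) ≤ (d * n i1) ^ 2 * ν ^ (l + 1) := by gcongr
        _ = d ^ 2 * (n i1 * n i1 * ν ^ (l + 1)) := by ring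
        _ ≤ d ^ 2 * (n i1 * (K * n i2) * ν ^ (l + 1)) := by gcongr
        _ = d ^ 2 * K * (n i1 * (n i2 * ν ^ (l + 1))) := by ring
        _ ≤ _ := by gcongr
    have h4 : S ^ 2 * (ν : ℝ) ^ (l + 1) ≤ d ^ 2 * K * P := by
      rw [hSdef, hPdef]
      exact_mod_cast h3
    have h5 : (s : ℝ) ^ (l + 1) ≤ η * ν ^ (l + 1) := by
      calc (s : ℝ) ^ (l + 1) = s * s ^ l := by ring
        _ ≤ (η * ν) * ν ^ l := by gcongr
        _ = _ := by ring
    calc S ^ 2 * s ^ (l + 1) ≤ S ^ 2 * (η * ν ^ (l + 1)) := by gcongr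
      _ = η * (S ^ 2 * ν ^ (l + 1)) := by ring
      _ ≤ η * (d ^ 2 * K * P) := by gcongr
      _ = _ := by ring
  have hE : (s : ℝ) ^ (l + 2) + s ≤ (1 + 1 / s) * s ^ (l + 2) := by
    have h1 : (1 : ℝ) ≤ s := by exact_mod_cast hs
    have h2 : (1 : ℝ) ≤ s ^ l := one_le_pow₀ h1
    have : (1 + 1 / s : ℝ) * s ^ (l + 2) = s ^ (l + 2) + s * s ^ l := by
      field_simp
      ring
    rw [this]
    nlinarith
  have hF : ((M / N0 : ℕ) : ℝ) * s ^ (l + 2) * S ≤ (1 + η) ^ d / (1 - η) * P := by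
    have h1 : ((M / N0 : ℕ) : ℝ) * N0 ≤ M := by exact_mod_cast Nat.div_mul_le_self M N0
    rw [div_mul_eq_mul_div, le_div_iff₀ (by linarith)]
    calc ((M / N0 : ℕ) : ℝ) * s ^ (l + 2) * S * (1 - η)
        = ((M / N0 : ℕ) : ℝ) * s ^ (l + 2) * ((1 - η) * S) := by ring
      _ ≤ ((M / N0 : ℕ) : ℝ) * s ^ (l + 2) * (N0 * s) := by gcongr
      _ = ((M / N0 : ℕ) : ℝ) * N0 * s ^ (l + 3) := by ring
      _ ≤ M * s ^ (l + 3) := by gcongr
      _ ≤ _ := hA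
  have hG : (N1 : ℝ) * s ^ (l + 2) * S ≤ 2 * d ^ 2 * K * η * P := by
    calc (N1 : ℝ) * s ^ (l + 2) * S = N1 * s * (s ^ (l + 1) * S) := by ring
      _ ≤ 2 * S * (s ^ (l + 1) * S) := by gcongr
      _ = 2 * (S ^ 2 * s ^ (l + 1)) := by ring
      _ ≤ 2 * (d ^ 2 * K * η * P) := by gcongr
      _ = _ := by ring
  rw [hl]
  have e : l + 3 - 1 = l + 2 := rfl
  rw [e]
  push_cast
  calc (((M / N0 : ℕ) : ℝ) + N1) * (s ^ (l + 2) + s) * S
      ≤ (((M / N0 : ℕ) : ℝ) + N1) * ((1 + 1 / s) * s ^ (l + 2)) * S := by gcongr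
    _ = (1 + 1 / s) * (((M / N0 : ℕ) : ℝ) * s ^ (l + 2) * S + N1 * s ^ (l + 2) * S) := by ring
    _ ≤ (1 + 1 / s) * ((1 + η) ^ d / (1 - η) * P + 2 * d ^ 2 * K * η * P) := by gcongr
    _ = _ := by ring

lemma upper (d : ℕ) (ε : ℝ) (hε : 0 < ε) : ∃ n₀ : ℕ, ∀ n : Fin d → ℕ, (∀ i, 1 ≤ n i) →
    3 ≤ (univ.filter fun i => n₀ ≤ n i).card →
    ∃ r : ℕ, (∀ X : (∀ i, Fin (n i)) → ℂ, RankLE X r) ∧
      (r : ℝ) * ∑ i, (n i : ℝ) ≤ (1 + ε) * ∏ i, (n i : ℝ) := by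
  obtain ⟨s, hs⟩ := exists_nat_gt (1 / ε)
  have hsR : (0 : ℝ) < s := lt_trans (by positivity) hs
  have hs0 : 0 < s := by exact_mod_cast hsR
  have hs1 : 1 / (s : ℝ) < ε := by
    rw [div_lt_iff₀ hsR]
    rw [div_lt_iff₀ hε] at hs
    linarith
  obtain ⟨K, hK⟩ := exists_nat_gt (d / ε)
  have hK1 : (d : ℝ) ≤ K * ε := ((div_lt_iff₀ hε).mp hK).le
  have hKR : (0 : ℝ) < K := lt_of_le_of_lt (by positivity) hK
  have hK0 : 0 < K := by exact_mod_cast hKR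
  obtain ⟨η, hη, hη1, hηε⟩ := exists_eta d ε (2 * d ^ 2 * K) (1 / s) hs1
  obtain ⟨ν, hν⟩ := exists_nat_ge (s / η)
  obtain ⟨R, hR⟩ := exists_nat_ge (2 * d * ν / η)
  refine ⟨R + K * ν, fun n hn h3 => ?_⟩
  obtain ⟨i0, hi0⟩ : (univ.filter fun i => R + K * ν ≤ n i).Nonempty := card_pos.mp (by omega)
  have hi0' : R + K * ν ≤ n i0 := (mem_filter.mp hi0).2
  obtain ⟨i1, -, hmax⟩ := exists_max_image univ n ⟨i0, mem_univ _⟩
  have hmax' : ∀ i, n i ≤ n i1 := fun i => hmax i (mem_univ _)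
  have hP : 0 ≤ ∏ i, (n i : ℝ) := prod_nonneg fun _ _ => Nat.cast_nonneg _
  by_cases hcase : ∃ i2, i2 ≠ i1 ∧ n i1 ≤ K * n i2
  · obtain ⟨i2, h12, hK2⟩ := hcase
    have hν1 : ν ≤ K * ν := Nat.le_mul_of_pos_left _ hK0
    have a1 : (s : ℝ) ≤ η * ν := by
      rw [div_le_iff₀ hη] at hν
      linarith
    have a2 : 2 * d * ν ≤ η * ∑ i, (n i : ℝ) := by
      rw [div_le_iff₀ hη] at hR
      have h1 : (n i0 : ℝ) ≤ ∑ i, (n i : ℝ) := single_le_sum (f := fun i => (n i : ℝ))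
        (fun _ _ => Nat.cast_nonneg _) (mem_univ i0)
      have h2 : (R : ℝ) ≤ n i0 := by exact_mod_cast (Nat.le_add_right _ _).trans hi0'
      nlinarith
    have a3 : 3 ≤ (univ.filter fun i => ν ≤ n i).card := by
      refine h3.trans (card_le_card fun i hi => ?_)
      rw [mem_filter] at hi ⊢
      exact ⟨hi.1, by omega⟩
    have a4 : ν ≤ n i2 := by
      have := hmax' i0
      exact Nat.le_of_mul_le_mul_left (by omega : K * ν ≤ K * n i2) hK0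
    obtain ⟨r, hr, hr'⟩ := balanced n hn s ν K η hs0 hη hη1 a1 a2 a3 i1 i2 h12 hmax' hK2 a4
    exact ⟨r, hr, hr'.trans (mul_le_mul_of_nonneg_right hηε hP)⟩
  · push Not at hcase
    obtain ⟨r, hr, hr'⟩ := rankLE_slices (κ := fun i => Fin (n i)) i1 ⟨0, hn i1⟩
    refine ⟨r, hr', ?_⟩
    have h1 : (r : ℝ) * n i1 ≤ ∏ i, (n i : ℝ) := by
      simp only [Fintype.card_fin] at hr
      exact_mod_cast hr
    have h2 : K * ∑ i, n i ≤ K * n i1 + d * n i1 := by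
      rw [← add_sum_erase _ _ (mem_univ i1), mul_add, mul_sum]
      refine Nat.add_le_add_left ?_ _
      refine (sum_le_card_nsmul _ _ (n i1) fun i hi => (hcase i (ne_of_mem_erase hi)).le).trans ?_
      rw [smul_eq_mul]
      exact Nat.mul_le_mul_right _ (by simp)
    have h3 : (K : ℝ) * ∑ i, (n i : ℝ) ≤ K * n i1 + d * n i1 := by exact_mod_cast h2
    have h4 : ∑ i, (n i : ℝ) ≤ (1 + ε) * n i1 := by
      have h0 : (0 : ℝ) ≤ n i1 := Nat.cast_nonneg _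
      refine le_of_mul_le_mul_left ?_ hKR
      nlinarith
    calc (r : ℝ) * ∑ i, (n i : ℝ) ≤ r * ((1 + ε) * n i1) := by gcongr
      _ = (1 + ε) * (r * n i1) := by ring
      _ ≤ _ := by gcongr

lemma rankLE_iff {d : ℕ} {n : Fin d → ℕ} (X : (∀ i, Fin (n i)) → ℂ) (r : ℕ) :
    RankLE X r ↔ ∃ v : Fin r → ∀ i, Fin (n i) → ℂ, ∀ j, X j = ∑ k, ∏ i, v k i (j i) := by
  simp [RankLE, pure, funext_iff]

lemma exists_least {d : ℕ} {n : Fin d → ℕ} {r : ℕ} (hr : ∀ X : (∀ i, Fin (n i)) → ℂ, RankLE X r) :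
    ∃ m : ℕ, IsLeast {r : ℕ | ∀ X : (∀ i, Fin (n i)) → ℂ,
        ∃ v : Fin r → ∀ i, Fin (n i) → ℂ, ∀ j, X j = ∑ k, ∏ i, v k i (j i)} m ∧
      m ≤ r ∧ ∏ i, n i ≤ m * ∑ i, n i := by
  have hmem : r ∈ {r : ℕ | ∀ X : (∀ i, Fin (n i)) → ℂ,
      ∃ v : Fin r → ∀ i, Fin (n i) → ℂ, ∀ j, X j = ∑ k, ∏ i, v k i (j i)} :=
    fun X => (rankLE_iff X r).mp (hr X)
  have hm := Nat.sInf_mem ⟨r, hmem⟩
  refine ⟨_, ⟨hm, fun _ h => Nat.sInf_le h⟩, Nat.sInf_le hmem, ?_⟩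
  simpa using lower_bound (κ := fun i => Fin (n i)) fun X => (rankLE_iff X _).mpr (hm X)

theorem asymptotic (d : ℕ) (ε : ℝ) (hε : 0 < ε) : ∃ n₀ : ℕ, ∀ n : Fin d → ℕ, (∀ i, 1 ≤ n i) →
    3 ≤ (Finset.univ.filter fun i => n₀ ≤ n i).card →
    ∃ m : ℕ, IsLeast {r : ℕ | ∀ X : (∀ i, Fin (n i)) → ℂ,
        ∃ v : Fin r → ∀ i, Fin (n i) → ℂ, ∀ j, X j = ∑ k, ∏ i, v k i (j i)} m ∧
      (∏ i, (n i : ℝ)) / (∑ i, (n i : ℝ)) ≤ m ∧
      (m : ℝ) ≤ (1 + ε) * ((∏ i, (n i : ℝ)) / ∑ i, (n i : ℝ)) := by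
  obtain ⟨n₀, h⟩ := upper d ε hε
  refine ⟨n₀, fun n hn h3 => ?_⟩
  obtain ⟨r, hr, hr'⟩ := h n hn h3
  obtain ⟨m, hm, hmr, hlow⟩ := exists_least hr
  obtain ⟨i0, -⟩ : (univ.filter fun i => n₀ ≤ n i).Nonempty := card_pos.mp (by omega)
  have hSpos : 0 < ∑ i, (n i : ℝ) := by
    refine lt_of_lt_of_le ?_ (single_le_sum (f := fun i => (n i : ℝ))
      (fun _ _ => Nat.cast_nonneg _) (mem_univ i0))
    exact_mod_cast hn i0
  refine ⟨m, hm, ?_, ?_⟩
  · rw [div_le_iff₀ hSpos]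
    exact_mod_cast hlow
  · rw [← mul_div_assoc, le_div_iff₀ hSpos]
    have : (m : ℝ) ≤ r := by exact_mod_cast hmr
    exact le_trans (by gcongr) hr'

lemma cubic_upper (n : ℕ) (hn : 1 ≤ n) :
    ∃ r : ℕ, (∀ X : (∀ _ : Fin 3, Fin n) → ℂ, RankLE (κ := fun _ => Fin n) X r) ∧
      (r : ℝ) ≤ (n : ℝ) ^ 2 / 3 + 7 * n * √n := by
  have hx : (√n : ℝ) ^ 2 = n := Real.sq_sqrt (Nat.cast_nonneg _)
  have hx0 : (0 : ℝ) ≤ √n := Real.sqrt_nonneg _
  by_cases hsmall : n.sqrt < 10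
  · obtain ⟨r, hr, hr'⟩ := rankLE_slices (κ := fun _ : Fin 3 => Fin n) 0 ⟨0, hn⟩
    refine ⟨r, hr', ?_⟩
    have h1 : r ≤ n ^ 2 := by
      refine Nat.le_of_mul_le_mul_right ?_ hn
      simpa [pow_succ] using hr
    have h2 : (r : ℝ) ≤ n ^ 2 := by exact_mod_cast h1
    have h3 : n < 100 := by
      have := Nat.lt_succ_sqrt n
      nlinarith
    have h4 : (n : ℝ) ≤ 100 := by exact_mod_cast h3.le
    have h5 : (√n : ℝ) ≤ 10 := by nlinarith
    have h6 : (0 : ℝ) ≤ n := Nat.cast_nonneg _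
    have h7 : (n : ℝ) ≤ 10 * √n := by nlinarith
    nlinarith
  · set p := n.sqrt with hp
    have h10 : 10 ≤ p := by omega
    have h := core (ι := Fin 3) univ (fun _ => n) (fun _ => p + 1) (p + 1) (fun _ => hn)
      (fun _ _ => (Nat.lt_succ_sqrt n).le) (by simp) (by simp; omega)
    refine ⟨_, h, ?_⟩
    simp only [prod_const, card_univ, Fintype.card_fin, sum_const, smul_eq_mul,
      Nat.add_sub_cancel]
    have hpR : (10 : ℝ) ≤ p := by exact_mod_cast h10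
    have h1 : (((p + 1) ^ 3 / (3 * p) : ℕ) : ℝ) * (3 * p) ≤ (p + 1) ^ 3 := by
      exact_mod_cast Nat.div_mul_le_self _ _
    have h2 : (((p + 1) ^ 3 / (3 * p) : ℕ) : ℝ) ≤ p ^ 2 / 3 + p + 11 / 10 := by
      refine le_of_mul_le_mul_right (h1.trans ?_) (by positivity : (0 : ℝ) < 3 * p)
      nlinarith
    have h3 : (p : ℝ) ^ 2 ≤ n := by exact_mod_cast Nat.sqrt_le' n
    have h4 : (p : ℝ) ≤ √n := by nlinarith
    have h5 : (p : ℝ) ^ 4 ≤ n ^ 2 := by nlinarith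
    have h6 : (p : ℝ) ^ 3 ≤ n * √n := by
      calc (p : ℝ) ^ 3 = p ^ 2 * p := by ring
        _ ≤ _ := by gcongr
    push_cast
    calc ((((p + 1) ^ 3 / (3 * p) : ℕ) : ℝ) + 3 * (p + 1)) * ((p + 1 : ℝ) ^ 2 + (p + 1))
        ≤ (p ^ 2 / 3 + p + 11 / 10 + 3 * (p + 1)) * ((p + 1 : ℝ) ^ 2 + (p + 1)) := by gcongr
      _ ≤ (p : ℝ) ^ 4 / 3 + 7 * p ^ 3 := by
        have : (0 : ℝ) ≤ p - 10 := by linarith
        nlinarith [mul_nonneg this (sq_nonneg (p : ℝ)), mul_nonneg this this]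
      _ ≤ _ := by linarith

theorem cubic (n : ℕ) (hn : 1 ≤ n) :
    ∃ m : ℕ, IsLeast {r : ℕ | ∀ X : Fin n → Fin n → Fin n → ℂ, ∃ a b c : Fin r → Fin n → ℂ,
        ∀ i j k, X i j k = ∑ l, a l i * b l j * c l k} m ∧
      (n : ℝ) ^ 2 / 3 ≤ m ∧ (m : ℝ) ≤ (n : ℝ) ^ 2 / 3 + 7 * n * √n := by
  obtain ⟨r, hr, hr'⟩ := cubic_upper n hn
  obtain ⟨m, hm, hmr, hlow⟩ := exists_least (n := fun _ : Fin 3 => n) hr
  refine ⟨m, ?_, ?_, ?_⟩
  · convert hm using 1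
    ext r
    constructor
    · intro h X
      obtain ⟨a, b, c, h⟩ := h fun i j k => X ![i, j, k]
      refine ⟨fun l => ![a l, b l, c l], fun j => ?_⟩
      have e : j = ![j 0, j 1, j 2] := by
        funext i
        fin_cases i <;> rfl
      rw [e, h]
      simp [Fin.prod_univ_three]
    · intro h X
      obtain ⟨v, hv⟩ := h fun j => X (j 0) (j 1) (j 2)
      refine ⟨fun l => v l 0, fun l => v l 1, fun l => v l 2, fun i j k => ?_⟩
      simpa [Fin.prod_univ_three] using hv ![i, j, k]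
  · simp only [prod_const, card_univ, Fintype.card_fin, sum_const, smul_eq_mul] at hlow
    have h1 : n ^ 2 ≤ 3 * m := by
      refine Nat.le_of_mul_le_mul_right ?_ hn
      calc n ^ 2 * n = n ^ 3 := by ring
        _ ≤ m * (3 * n) := hlow
        _ = _ := by ring
    have h2 : (n : ℝ) ^ 2 ≤ 3 * m := by exact_mod_cast h1
    linarith
  · have : (m : ℝ) ≤ r := by exact_mod_cast hmr
    exact this.trans hr'

end Pool.Agent.P.MP_098a67_ag
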