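import Pool.Agent.P.MP_098a67_ag.Big

/-!
Stationarity of the dimensions of spans of generic members of an invariant family of subspaces.
-/

namespace Pool.Agent.P.MP_098a67_ag

open Module Submodule

variable {P V σ : Type*} [NormedAddCommGroup P] [NormedSpace ℂ P]
  [NormedAddCommGroup V] [NormedSpace ℂ V] [FiniteDimensional ℂ V]

/-- The span of the subspaces attached to the parameters `z i`, `i ∈ S`. -/
def W (a : σ → P → V) {α : Type*} (z : α → P) (S : Finset α) : Submodule ℂ V :=
  span ℂ (Set.range fun p : S × σ => a p.2 (z p.1))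

/-- The subspace attached to one parameter. -/
def T (a : σ → P → V) (x : P) : Submodule ℂ V := span ℂ (Set.range fun s => a s x)

section
variable (a : σ → P → V)

omit [NormedAddCommGroup P] [NormedSpace ℂ P] [FiniteDimensional ℂ V] in
lemma W_le_iff {α : Type*} (z : α → P) (S : Finset α) (U : Submodule ℂ V) :
    W a z S ≤ U ↔ ∀ i ∈ S, T a (z i) ≤ U := by
  unfold W T
  simp only [span_le, Set.range_subset_iff]
  constructor
  · intro h i hi s
    exact h (⟨i, hi⟩, s)
  · rintro h ⟨⟨i, hi⟩, s⟩
    exact h i hi s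

omit [NormedAddCommGroup P] [NormedSpace ℂ P] [FiniteDimensional ℂ V] in
lemma T_le_W {α : Type*} (z : α → P) {S : Finset α} {i : α} (hi : i ∈ S) :
    T a (z i) ≤ W a z S := (W_le_iff a z S _).mp le_rfl i hi

omit [NormedAddCommGroup P] [NormedSpace ℂ P] [FiniteDimensional ℂ V] in
lemma W_le_W {α β : Type*} {z : α → P} {S : Finset α} {z' : β → P} {S' : Finset β}
    (h : ∀ i ∈ S, ∃ j ∈ S', z i = z' j) : W a z S ≤ W a z' S' := by
  rw [W_le_iff]
  intro i hi
  obtain ⟨j, hj, e⟩ := h i hi
  rw [e]
  exact T_le_W a z' hj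

omit [NormedAddCommGroup P] [NormedSpace ℂ P] [FiniteDimensional ℂ V] in
lemma W_insert {α : Type*} [DecidableEq α] (z : α → P) (S : Finset α) (y : α) :
    W a z (insert y S) = W a z S ⊔ T a (z y) := by
  apply le_antisymm
  · rw [W_le_iff]
    intro i hi
    rcases Finset.mem_insert.mp hi with rfl | hi
    · exact le_sup_right
    · exact (T_le_W a z hi).trans le_sup_left
  · exact sup_le (W_le_W a fun i hi => ⟨i, Finset.mem_insert_of_mem hi, rfl⟩)
      (T_le_W a z (Finset.mem_insert_self _ _))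

omit [NormedAddCommGroup P] [NormedSpace ℂ P] [FiniteDimensional ℂ V] in
lemma W_singleton {α : Type*} (z : α → P) (y : α) : W a z {y} = T a (z y) := by
  apply le_antisymm
  · rw [W_le_iff]
    intro i hi
    rw [Finset.mem_singleton.mp hi]
  · exact T_le_W a z (Finset.mem_singleton_self _)

/-- The maximal dimension of the span of `k` members of the family. -/
noncomputable def D (k : ℕ) : ℕ :=
  sSup (Set.range fun x : Fin k → P => finrank ℂ (W a x Finset.univ))

omit [NormedAddCommGroup P] [NormedSpace ℂ P] in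
lemma D_bdd (k : ℕ) :
    BddAbove (Set.range fun x : Fin k → P => finrank ℂ (W a x Finset.univ)) :=
  ⟨finrank ℂ V, by rintro _ ⟨x, rfl⟩; exact Submodule.finrank_le _⟩

omit [NormedSpace ℂ P] in
lemma D_attained (k : ℕ) : ∃ x : Fin k → P, finrank ℂ (W a x Finset.univ) = D a k :=
  Nat.sSup_mem (Set.range_nonempty _) (D_bdd a k)

omit [NormedSpace ℂ P] in
lemma D_le (k : ℕ) : D a k ≤ finrank ℂ V := by
  obtain ⟨x, hx⟩ := D_attained a k
  exact hx ▸ Submodule.finrank_le _

omit [NormedAddCommGroup P] [NormedSpace ℂ P] in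
lemma le_D {α : Type*} (z : α → P) (S : Finset α) : finrank ℂ (W a z S) ≤ D a S.card := by
  have h : W a z S ≤ W a (fun i => z (S.equivFin.symm i)) Finset.univ :=
    W_le_W a fun i hi => ⟨S.equivFin ⟨i, hi⟩, Finset.mem_univ _, by simp⟩
  exact (Submodule.finrank_mono h).trans (le_csSup (D_bdd a _) ⟨_, rfl⟩)

/-- Tuples all of whose subtuples span the maximal possible dimension. -/
def Gen (α : Type*) : Set (α → P) := {z | ∀ S : Finset α, D a S.card ≤ finrank ℂ (W a z S)}

variable {a}

lemma gen_big (ha : ∀ s, Differentiable ℂ (a s)) (α : Type*) [Fintype α] :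
    Big (Gen a α) ∧ (Gen a α).Nonempty := by
  classical
  have h := Big.biInter (E := α → P) (Finset.univ : Finset (Finset α))
    (fun S => {z | D a S.card ≤ finrank ℂ (W a z S)}) ?_ ?_
  · have e : Gen a α = ⋂ S ∈ (Finset.univ : Finset (Finset α)),
        {z | D a S.card ≤ finrank ℂ (W a z S)} := by
      ext z
      simp [Gen]
    rw [e]
    exact h
  · intro S
    exact big_rank (fun (p : S × σ) (z : α → P) => a p.2 (z p.1))
      (fun p => (ha p.2).comp (differentiable_apply _)) _
  · intro S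
    obtain ⟨x, hx⟩ := D_attained a S.card
    refine ⟨fun i => if h : i ∈ S then x (S.equivFin ⟨i, h⟩) else 0, ?_⟩
    rw [Set.mem_ofPred_eq, ← hx]
    refine Submodule.finrank_mono (W_le_W a fun j _ => ?_)
    refine ⟨S.equivFin.symm j, (S.equivFin.symm j).2, ?_⟩
    simp

omit [NormedAddCommGroup P] [NormedSpace ℂ P] in
lemma gen_eq {α : Type*} {z : α → P} (hz : z ∈ Gen a α) (S : Finset α) :
    finrank ℂ (W a z S) = D a S.card := le_antisymm (le_D a z S) (hz S)

omit [NormedAddCommGroup P] [NormedSpace ℂ P] in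
lemma gen_inf {α : Type*} {z : α → P} (hz : z ∈ Gen a α) {S : Finset α} {y : α} (hy : y ∉ S) :
    D a (S.card + 1) + finrank ℂ (W a z S ⊓ T a (z y) : Submodule ℂ V)
      = D a S.card + D a 1 := by
  classical
  have h := Submodule.finrank_sup_add_finrank_inf_eq (W a z S) (T a (z y))
  rw [← W_insert, gen_eq hz, gen_eq hz, Finset.card_insert_of_notMem hy] at h
  rw [h, ← W_singleton, gen_eq hz, Finset.card_singleton]

lemma D_concave (ha : ∀ s, Differentiable ℂ (a s)) (k : ℕ) :
    D a (k + 2) + D a k ≤ 2 * D a (k + 1) := by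
  classical
  obtain ⟨z, hz⟩ := (gen_big ha (Option (Option (Fin k)))).2
  let S : Finset (Option (Option (Fin k))) := Finset.univ.image fun j : Fin k => some (some j)
  have hS : S.card = k := by
    rw [Finset.card_image_of_injective _ (fun _ _ h => by simpa using h)]
    simp
  have h1 := gen_inf hz (S := S) (y := none) (by simp [S])
  have h2 := gen_inf hz (S := insert (some none) S) (y := none) (by simp [S])
  rw [Finset.card_insert_of_notMem (by simp [S])] at h2
  rw [hS] at h1 h2
  have h3 : finrank ℂ (W a z S ⊓ T a (z none) : Submodule ℂ V)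
      ≤ finrank ℂ (W a z (insert (some none) S) ⊓ T a (z none) : Submodule ℂ V) :=
    Submodule.finrank_mono (inf_le_inf_right _
      (W_le_W a fun i hi => ⟨i, Finset.mem_insert_of_mem hi, rfl⟩))
  have : k + 1 + 1 = k + 2 := rfl
  rw [this] at h2
  omega

lemma D_succ_le (ha : ∀ s, Differentiable ℂ (a s)) (k : ℕ) :
    D a (k + 1) ≤ D a k + D a 1 ∧ D a k ≤ D a (k + 1) := by
  classical
  obtain ⟨z, hz⟩ := (gen_big ha (Option (Fin k))).2
  let S : Finset (Option (Fin k)) := Finset.univ.image fun j : Fin k => some j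
  have hS : S.card = k := by
    rw [Finset.card_image_of_injective _ (fun _ _ h => by simpa using h)]
    simp
  have h1 := gen_inf hz (S := S) (y := none) (by simp [S])
  rw [hS] at h1
  have h2 : finrank ℂ (W a z S ⊓ T a (z none) : Submodule ℂ V) ≤ D a 1 := by
    have := le_D a z {none}
    rw [W_singleton, Finset.card_singleton] at this
    exact (Submodule.finrank_mono inf_le_right).trans this
  omega

omit [NormedAddCommGroup P] [NormedSpace ℂ P] in
lemma inf_step {α : Type*} [DecidableEq α] {k : ℕ}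
    (hst : D a (k + 2) + D a k = 2 * D a (k + 1)) {z : α → P} (hz : z ∈ Gen a α)
    {S : Finset α} {y v : α} (hS : S.card = k) (hy : y ∉ S) (hv : v ∉ S) (hvy : y ≠ v) :
    W a z S ⊓ T a (z y) = W a z (insert v S) ⊓ T a (z y) := by
  have h1 := gen_inf hz hy
  have h2 := gen_inf hz (S := insert v S) (y := y) (by simp [hy, hvy])
  rw [Finset.card_insert_of_notMem hv] at h2
  rw [hS] at h1 h2
  have : k + 1 + 1 = k + 2 := rfl
  rw [this] at h2
  refine Submodule.eq_of_le_of_finrank_eq (inf_le_inf_right _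
      (W_le_W a fun i hi => ⟨i, Finset.mem_insert_of_mem hi, rfl⟩)) ?_
  omega

omit [NormedAddCommGroup P] [NormedSpace ℂ P] in
lemma inf_exchange {α : Type*} [DecidableEq α] {k : ℕ}
    (hst : D a (k + 2) + D a k = 2 * D a (k + 1)) {z : α → P} (hz : z ∈ Gen a α) {y : α}
    (S' : Finset α) (hS' : S'.card = k) (hy' : y ∉ S') :
    ∀ (m : ℕ) (S : Finset α), S.card = k → y ∉ S → (S' \ S).card = m →
      W a z S ⊓ T a (z y) = W a z S' ⊓ T a (z y) := by
  intro m
  induction m with
  | zero =>
    intro S hS _ hm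
    have h1 : S' ⊆ S := Finset.sdiff_eq_empty_iff_subset.mp (Finset.card_eq_zero.mp hm)
    rw [Finset.eq_of_subset_of_card_le h1 (by omega)]
  | succ m ih =>
    intro S hS hy hm
    obtain ⟨v, hv⟩ : (S' \ S).Nonempty := Finset.card_pos.mp (by omega)
    have hc : (S \ S').card = (S' \ S).card := Finset.card_sdiff_comm (by omega)
    obtain ⟨u, hu⟩ : (S \ S').Nonempty := Finset.card_pos.mp (by omega)
    rw [Finset.mem_sdiff] at hu hv
    have hyv : y ≠ v := fun h => hy' (h ▸ hv.1)
    have hyu : y ≠ u := fun h => hy (h ▸ hu.1)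
    have huv : u ≠ v := fun h => hv.2 (h ▸ hu.1)
    have hpos : 0 < S.card := Finset.card_pos.mpr ⟨u, hu.1⟩
    have hc2 : (insert v (S.erase u)).card = k := by
      rw [Finset.card_insert_of_notMem (by simp [hv.2]), Finset.card_erase_of_mem hu.1]
      omega
    have hy2 : y ∉ insert v (S.erase u) := by simp [hyv, hy]
    have e1 := inf_step hst hz hS hy hv.2 hyv
    have e2 := inf_step hst hz hc2 hy2 (v := u) (by simp [huv]) hyu
    have e3 : insert u (insert v (S.erase u)) = insert v S := by
      rw [Finset.insert_comm, Finset.insert_erase hu.1]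
    rw [e3] at e2
    rw [e1, ← e2]
    refine ih _ hc2 hy2 ?_
    have : S' \ insert v (S.erase u) = (S' \ S).erase v := by
      ext w
      simp only [Finset.mem_sdiff, Finset.mem_insert, Finset.mem_erase]
      constructor
      · rintro ⟨h1, h2⟩
        refine ⟨fun h => h2 (Or.inl h), h1, fun h => h2 (Or.inr ⟨?_, h⟩)⟩
        rintro rfl
        exact hu.2 h1
      · rintro ⟨h1, h2, h3⟩
        exact ⟨h2, fun h => h.elim h1 fun h => h3 h.2⟩
    rw [this, Finset.card_erase_of_mem (Finset.mem_sdiff.mpr hv)]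
    omega

/-- If the increments are stationary below the full value, a nonzero vector lies in every
span of maximal dimension. -/
lemma common_vector (ha : ∀ s, Differentiable ℂ (a s)) {k : ℕ}
    (hst : D a (k + 2) + D a k = 2 * D a (k + 1)) (hlt : D a (k + 1) < D a k + D a 1) :
    ∃ u : V, u ≠ 0 ∧ ∀ x : Fin k → P, D a k ≤ finrank ℂ (W a x Finset.univ) →
      u ∈ W a x Finset.univ := by
  classical
  obtain ⟨hbig, z0, hz0⟩ := gen_big ha (Option (Fin k ⊕ Fin k))
  let S0 : Finset (Option (Fin k ⊕ Fin k)) := Finset.univ.image fun j : Fin k => some (.inl j)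
  let S1 : Finset (Option (Fin k ⊕ Fin k)) := Finset.univ.image fun j : Fin k => some (.inr j)
  have hS0 : S0.card = k := by
    rw [Finset.card_image_of_injective _ (fun _ _ h => by simpa using h)]
    simp
  have hS1 : S1.card = k := by
    rw [Finset.card_image_of_injective _ (fun _ _ h => by simpa using h)]
    simp
  have h1 := gen_inf hz0 (S := S0) (y := none) (by simp [S0])
  rw [hS0] at h1
  have hne : (W a z0 S0 ⊓ T a (z0 none) : Submodule ℂ V) ≠ ⊥ := by
    intro h
    rw [h, finrank_bot] at h1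
    omega
  obtain ⟨u, hu, hu0⟩ := Submodule.exists_mem_ne_zero_of_ne_bot hne
  refine ⟨u, hu0, fun x0 hx0 => ?_⟩
  let z : (Fin k → P) → Option (Fin k ⊕ Fin k) → P := fun x i =>
    match i with
    | some (.inr j) => x j
    | some (.inl j) => z0 (some (.inl j))
    | none => z0 none
  have hzd : Differentiable ℂ z := by
    refine differentiable_pi.mpr fun i => ?_
    rcases i with _ | j | j
    · exact differentiable_const _
    · exact differentiable_const _
    · exact differentiable_apply j
  have hΩ : Big (z ⁻¹' Gen a _) := hbig.preimage hzd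
  have hΩne : (z ⁻¹' Gen a _).Nonempty := by
    refine ⟨fun j => z0 (some (.inr j)), ?_⟩
    have : z (fun j => z0 (some (.inr j))) = z0 := by
      funext i
      rcases i with _ | j | j <;> rfl
    rw [Set.mem_preimage, this]
    exact hz0
  have hmem : ∀ x ∈ z ⁻¹' Gen a _, u ∈ W a x Finset.univ := by
    intro x hx
    have e := inf_exchange hst hx (y := none) S1 hS1 (by simp [S1]) _ S0 hS0 (by simp [S0]) rfl
    have h2 : W a z0 S0 ≤ W a (z x) S0 := by
      refine W_le_W a fun i hi => ⟨i, hi, ?_⟩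
      obtain ⟨j, _, rfl⟩ := Finset.mem_image.mp hi
      rfl
    have h3 : W a (z x) S1 ≤ W a x Finset.univ := by
      refine W_le_W a fun i hi => ?_
      obtain ⟨j, _, rfl⟩ := Finset.mem_image.mp hi
      exact ⟨j, Finset.mem_univ _, rfl⟩
    have h4 : u ∈ W a (z x) S0 ⊓ T a (z x none) := ⟨h2 hu.1, hu.2⟩
    rw [e] at h4
    exact h3 h4.1
  by_contra hnot
  let b : Option (↥(Finset.univ : Finset (Fin k)) × σ) → (Fin k → P) → V := fun o x =>
    match o with
    | none => u
    | some p => a p.2 (x p.1)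
  have hb : ∀ o, Differentiable ℂ (b o) := by
    rintro (_ | p)
    · exact differentiable_const _
    · exact (ha p.2).comp (differentiable_apply _)
  have hspan : ∀ x, span ℂ (Set.range fun o => b o x) = W a x Finset.univ ⊔ span ℂ {u} := by
    intro x
    unfold W
    rw [← span_union]
    congr 1
    ext w
    simp only [Set.mem_range, Set.mem_union, Set.mem_singleton_iff]
    constructor
    · rintro ⟨_ | p, rfl⟩
      · exact Or.inr rfl
      · exact Or.inl ⟨p, rfl⟩
    · rintro (⟨p, rfl⟩ | rfl)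
      · exact ⟨some p, rfl⟩
      · exact ⟨none, rfl⟩
  have hB := big_rank b hb (D a k + 1)
  have hBne : {x | D a k + 1 ≤ finrank ℂ (span ℂ (Set.range fun o => b o x))}.Nonempty := by
    refine ⟨x0, ?_⟩
    rw [Set.mem_ofPred_eq, hspan]
    have : W a x0 Finset.univ < W a x0 Finset.univ ⊔ span ℂ {u} := by
      refine lt_of_le_of_ne le_sup_left fun h => hnot ?_
      rw [h]
      exact (le_sup_right : span ℂ {u} ≤ _) (mem_span_singleton_self u)
    have := Submodule.finrank_lt_finrank_of_lt this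
    omega
  obtain ⟨x, hx1, hx2⟩ := hΩ.inter_nonempty hB hΩne hBne
  have h5 : D a k + 1 ≤ finrank ℂ (span ℂ (Set.range fun o => b o x)) := hx2
  rw [hspan, sup_eq_left.mpr ((span_singleton_le_iff_mem _ _).mpr (hmem x hx1))] at h5
  have h6 := le_D a x Finset.univ
  simp only [Finset.card_univ, Fintype.card_fin] at h6
  omega

lemma stationary (ha : ∀ s, Differentiable ℂ (a s)) (Γ : Set (V →ₗ[ℂ] V))
    (hΓ : ∀ γ ∈ Γ, ∃ (δ : V →ₗ[ℂ] V) (ψ : P → P), Function.Injective δ ∧
      ∀ x, (T a x).map δ ≤ T a (ψ x) ∧ (T a (ψ x)).map γ ≤ T a x)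
    (irr : ∀ U : Submodule ℂ V, U ≠ ⊥ → (∀ γ ∈ Γ, U.map γ ≤ U) → U = ⊤) {k : ℕ}
    (hst : D a (k + 2) + D a k = 2 * D a (k + 1)) (hlt : D a (k + 1) < D a k + D a 1) :
    D a k = finrank ℂ V := by
  obtain ⟨u, hu0, hu⟩ := common_vector ha hst hlt
  let U : Submodule ℂ V :=
    ⨅ x : {x : Fin k → P // D a k ≤ finrank ℂ (W a x Finset.univ)}, W a x.1 Finset.univ
  have hU : U = ⊤ := by
    refine irr U ?_ ?_
    · intro h
      have : u ∈ U := (Submodule.mem_iInf _).mpr fun x => hu x.1 x.2
      rw [h] at this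
      exact hu0 this
    · intro γ hγ
      obtain ⟨δ, ψ, hδ, hψ⟩ := hΓ γ hγ
      refine le_iInf fun x => ?_
      have h1 : (W a x.1 Finset.univ).map δ ≤ W a (ψ ∘ x.1) Finset.univ := by
        rw [Submodule.map_le_iff_le_comap, W_le_iff]
        intro i hi
        rw [← Submodule.map_le_iff_le_comap]
        exact (hψ _).1.trans (T_le_W a (ψ ∘ x.1) hi)
      have h2 : (W a (ψ ∘ x.1) Finset.univ).map γ ≤ W a x.1 Finset.univ := by
        rw [Submodule.map_le_iff_le_comap, W_le_iff]
        intro i hi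
        rw [← Submodule.map_le_iff_le_comap]
        exact (hψ _).2.trans (T_le_W a x.1 hi)
      have h3 : D a k ≤ finrank ℂ (W a (ψ ∘ x.1) Finset.univ) := by
        refine x.2.trans (le_trans ?_ (Submodule.finrank_mono h1))
        exact (LinearEquiv.finrank_eq (Submodule.equivMapOfInjective δ hδ _)).le
      have h4 : U ≤ W a (ψ ∘ x.1) Finset.univ :=
        iInf_le (fun x : {x : Fin k → P // D a k ≤ finrank ℂ (W a x Finset.univ)} =>
          W a x.1 Finset.univ) ⟨ψ ∘ x.1, h3⟩
      exact (Submodule.map_mono h4).trans h2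
  obtain ⟨x, hx⟩ := D_attained a k
  have h4 : U ≤ W a x Finset.univ :=
    iInf_le (fun x : {x : Fin k → P // D a k ≤ finrank ℂ (W a x Finset.univ)} =>
      W a x.1 Finset.univ) ⟨x, hx.ge⟩
  have : W a x Finset.univ = ⊤ := top_le_iff.mp (hU ▸ h4)
  rw [← hx, this, finrank_top]

/-- The arithmetic of the dimension sequence. -/
lemma seq_fill (d : ℕ → ℕ) (M N : ℕ) (hN : 0 < N) (hM : ∀ k, d k ≤ M)
    (hle : ∀ k, d (k + 1) ≤ d k + N ∧ d k ≤ d (k + 1))
    (hc : ∀ k, d (k + 2) + d k ≤ 2 * d (k + 1))
    (hs : ∀ k, d (k + 2) + d k = 2 * d (k + 1) → d (k + 1) < d k + N → d k = M) :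
    d (M / N + N) = M := by
  have hmono : Monotone d := monotone_nat_of_le_succ fun k => (hle k).2
  have hdec : ∀ k j, d (k + j + 1) + d k ≤ d (k + 1) + d (k + j) := by
    intro k j
    induction j with
    | zero => simp [add_comm]
    | succ j ih =>
      have := hc (k + j)
      have e1 : k + (j + 1) + 1 = k + j + 2 := by ring
      have e2 : k + (j + 1) = k + j + 1 := by ring
      rw [e1, e2]
      omega
  have hk0 : d (M / N + 1) < d (M / N) + N := by
    by_contra hcon
    have hall : ∀ j, j ≤ M / N + 1 → j * N ≤ d j := by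
      intro j
      induction j with
      | zero => simp
      | succ j ih =>
        intro hj
        have h1 := ih (by omega)
        obtain ⟨i, hi⟩ : ∃ i, M / N = j + i := ⟨M / N - j, by omega⟩
        have h2 := hdec j i
        rw [← hi] at h2
        rw [add_mul]
        omega
    have h1 := hall _ le_rfl
    have h2 := hM (M / N + 1)
    have h3 := Nat.lt_div_mul_add (a := M) hN
    rw [add_mul] at h1
    omega
  by_contra hne
  have hlt : ∀ j, j ≤ N → d (M / N + j + 1) + j + 1 ≤ d (M / N + j) + N := by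
    intro j
    induction j with
    | zero => intro _; simpa using hk0
    | succ j ih =>
      intro hj
      have h1 := ih (by omega)
      have h2 := hc (M / N + j)
      have h3 := hs (M / N + j)
      have h4 : d (M / N + j) ≤ d (M / N + N) := hmono (by omega)
      have h5 := hM (M / N + N)
      have e1 : M / N + (j + 1) + 1 = M / N + j + 2 := by ring
      have e2 : M / N + (j + 1) = M / N + j + 1 := by ring
      rw [e1, e2]
      omega
  have h1 := hlt N le_rfl
  have h2 := (hle (M / N + N)).2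
  omega

theorem exists_spanning (ha : ∀ s, Differentiable ℂ (a s)) (Γ : Set (V →ₗ[ℂ] V))
    (hΓ : ∀ γ ∈ Γ, ∃ (δ : V →ₗ[ℂ] V) (ψ : P → P), Function.Injective δ ∧
      ∀ x, (T a x).map δ ≤ T a (ψ x) ∧ (T a (ψ x)).map γ ≤ T a x)
    (irr : ∀ U : Submodule ℂ V, U ≠ ⊥ → (∀ γ ∈ Γ, U.map γ ≤ U) → U = ⊤)
    (N0 N1 : ℕ) (hpos : 0 < N0) (h0 : ∃ x, N0 ≤ finrank ℂ (T a x))
    (h1 : ∀ x, finrank ℂ (T a x) ≤ N1) :
    ∃ g, g ≤ finrank ℂ V / N0 + N1 ∧ ∃ x : Fin g → P, W a x Finset.univ = ⊤ := by
  have hN0 : N0 ≤ D a 1 := by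
    obtain ⟨x, hx⟩ := h0
    have := le_D a (fun _ : Unit => x) {()}
    rw [W_singleton, Finset.card_singleton] at this
    exact hx.trans this
  have hN1 : D a 1 ≤ N1 := by
    obtain ⟨x, hx⟩ := D_attained a 1
    have : (Finset.univ : Finset (Fin 1)) = {0} := rfl
    rw [this, W_singleton] at hx
    exact hx ▸ h1 _
  have h := seq_fill (D a) (finrank ℂ V) (D a 1) (by omega) (D_le a) (D_succ_le ha)
    (D_concave ha) (fun k => stationary ha Γ hΓ irr)
  refine ⟨finrank ℂ V / D a 1 + D a 1, ?_, ?_⟩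
  · exact add_le_add (Nat.div_le_div_left hN0 hpos) hN1
  · obtain ⟨x, hx⟩ := D_attained a (finrank ℂ V / D a 1 + D a 1)
    exact ⟨x, Submodule.eq_top_of_finrank_eq (hx.trans h)⟩

end

end Pool.Agent.P.MP_098a67_ag
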