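import Pool.Agent.P.MP_098a67_ag.Kron

/-!
Configurations of pure tensors whose sum has small rank, moved around by the group.
-/

namespace Pool.Agent.P.MP_098a67_ag

open Module Submodule Function

variable {ι : Type} [Fintype ι] [DecidableEq ι] {κ : ι → Type} [∀ i, Fintype (κ i)]
  [∀ i, DecidableEq (κ i)]

omit [DecidableEq ι] [∀ i, Fintype (κ i)] in
lemma pure_single [DecidableEq (∀ i, κ i)] (j : ∀ i, κ i) :
    pure (fun i => (Pi.single (j i) 1 : κ i → ℂ)) = Pi.single j 1 := by
  funext l
  by_cases h : l = j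
  · subst h
    simp [pure]
  · rw [Pi.single_eq_of_ne h]
    obtain ⟨i, hi⟩ := Function.ne_iff.mp h
    exact Finset.prod_eq_zero (Finset.mem_univ i) (Pi.single_eq_of_ne hi _)

omit [Fintype ι] [DecidableEq ι] in
lemma unit_elem (i : ι) (a b : κ i) : IsUnit (1 + Matrix.single a b (1 : ℂ)) := by
  by_cases hab : a = b
  · subst hab
    refine IsUnit.of_mul_eq_one (1 - (1 / 2 : ℂ) • Matrix.single a a 1) ?_
    simp only [mul_sub, add_mul, mul_one, one_mul, Matrix.mul_smul,
      Matrix.single_mul_single_same]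
    module
  · refine IsUnit.of_mul_eq_one (1 - Matrix.single a b 1) ?_
    simp [mul_sub, add_mul, Matrix.single_mul_single_of_ne _ _ _ _ (Ne.symm hab)]

section
variable {H : ι → Type} {C : Type} (e : C → ∀ i, H i) (L : Finset ι)

/-- Tangent vectors at the points of a configuration. -/
def sv (q : C × Σ i : L, κ i) (p : ∀ i, H i → κ i → ℂ) : (∀ i, κ i) → ℂ :=
  tv L q.2 fun l => p l (e q.1 l)

/-- A matrix acting on the vectors of one factor. -/
def mv (i : ι) (g : Matrix (κ i) (κ i) ℂ) (p : ∀ i, H i → κ i → ℂ) : ∀ i, H i → κ i → ℂ :=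
  update p i fun h => g.mulVec (p i h)

lemma map_sv (i : ι) (g : Matrix (κ i) (κ i) ℂ) (p : ∀ i, H i → κ i → ℂ) :
    (T (sv e L) p).map (act i g) ≤ T (sv e L) (mv i g p) := by
  rw [Submodule.map_le_iff_le_comap]
  conv_lhs => unfold T
  rw [span_le]
  rintro _ ⟨⟨c, s⟩, rfl⟩
  have h1 := map_act_le L i g (fun l => p l (e c l))
    (Submodule.mem_map_of_mem (subset_span ⟨s, rfl⟩))
  have h2 : update (fun l => p l (e c l)) i (g.mulVec (p i (e c i))) =
      fun l => mv i g p l (e c l) := by
    funext l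
    by_cases hl : l = i
    · subst hl
      simp [mv]
    · simp [mv, update_of_ne hl]
  rw [h2] at h1
  exact span_mono (by rintro _ ⟨s', rfl⟩; exact ⟨(c, s'), rfl⟩) h1

end

theorem exists_spanning_sv [∀ i, Nonempty (κ i)] {H : ι → Type} [∀ i, Fintype (H i)] {C : Type}
    [Fintype C] (e : C → ∀ i, H i) (he : ∀ c c' i, (∀ l, l ≠ i → e c l = e c' l) → c = c')
    (f : ∀ i, H i ↪ κ i) (L : Finset ι)
    (hpos : 0 < Fintype.card C * ∑ i ∈ L, (Fintype.card (κ i) - Fintype.card (H i))) :
    ∃ g, g ≤ (∏ i, Fintype.card (κ i)) /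
          (Fintype.card C * ∑ i ∈ L, (Fintype.card (κ i) - Fintype.card (H i)))
        + Fintype.card C * ∑ i ∈ L, Fintype.card (κ i) ∧
      ∃ x : Fin g × C → ∀ i, κ i → ℂ, W (tv L) x Finset.univ = ⊤ ∧
        ∃ p : Fin g → ∀ i, H i → κ i → ℂ, ∀ q l, x q l = p q.1 l (e q.2 l) := by
  classical
  have := exists_spanning (a := sv (κ := κ) e L)
    (fun q => (tv_differentiable L q.2).comp (by fun_prop))
    {γ | ∃ (i : ι) (a b : κ i), γ = act (κ := κ) i (1 + Matrix.single a b 1)} ?_
    (fun U hU h => irreducible U hU fun i a b =>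
      h (act i (1 + Matrix.single a b 1)) (Set.mem_ofPred_eq ▸ ⟨i, a, b, rfl⟩))
    _ (Fintype.card C * ∑ i ∈ L, Fintype.card (κ i)) hpos ?_ ?_
  · obtain ⟨g, hg, p, hp⟩ := this
    refine ⟨g, by simpa [Module.finrank_pi_fintype] using hg, fun q l => p q.1 l (e q.2 l), ?_,
      p, fun _ _ => rfl⟩
    rw [← top_le_iff, ← hp, W_le_iff]
    intro k _
    conv_lhs => unfold T
    rw [span_le]
    rintro _ ⟨⟨c, s⟩, rfl⟩
    exact T_le_W (tv L) (fun (q : Fin g × C) l => p q.1 l (e q.2 l)) (Finset.mem_univ (k, c))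
      (subset_span ⟨s, rfl⟩)
  · rintro _ ⟨i, a, b, rfl⟩
    obtain ⟨g, hg⟩ := unit_elem i a b
    refine ⟨act i g.inv, mv i g.inv, ?_, fun x => ⟨map_sv _ _ _ _ _, ?_⟩⟩
    · refine LeftInverse.injective (g := act i g.val) fun X => ?_
      rw [act_mul, g.val_inv, act_one]
    · refine (map_sv _ _ _ _ _).trans (le_of_eq ?_)
      congr 1
      rw [← hg]
      simp only [mv, update_self, update_idem, Matrix.mulVec_mulVec, g.val_inv, Matrix.one_mulVec,
        update_eq_self]
  · refine ⟨fun i h => Pi.single (f i h) 1, ?_⟩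
    let F : (C × Σ i : L, {a : κ i // a ∉ Set.range (f i)}) → ∀ i, κ i :=
      fun q => update (fun l => f l (e q.1 l)) q.2.1 q.2.2.1
    have hF : Injective F := by
      rintro ⟨c, ⟨i, hiL⟩, a, ha⟩ ⟨c', ⟨i', hiL'⟩, a', ha'⟩ h
      by_cases hi : i = i'
      · subst hi
        have h1 : a = a' := by simpa [F] using congrFun h i
        have h2 : c = c' := he c c' i fun l hl => by
          simpa [F, update_of_ne hl] using congrFun h l
        subst h1 h2
        rfl
      · have h1 : a = f i (e c' i) := by simpa [F, update_of_ne hi] using congrFun h i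
        exact absurd ⟨_, h1.symm⟩ ha
    have hli : LinearIndependent ℂ fun q => (Pi.single (F q) 1 : (∀ i, κ i) → ℂ) :=
      (Pi.linearIndependent_single_one _ ℂ).comp F hF
    have h1 := finrank_span_eq_card hli
    have h2 : Fintype.card (C × Σ i : L, {a : κ i // a ∉ Set.range (f i)}) =
        Fintype.card C * ∑ i ∈ L, (Fintype.card (κ i) - Fintype.card (H i)) := by
      rw [← Finset.sum_coe_sort L, Fintype.card_prod, Fintype.card_sigma]
      refine congrArg _ (Finset.sum_congr rfl fun i _ => ?_)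
      rw [Fintype.card_subtype_compl, Fintype.card_range]
    rw [← h2, ← h1]
    refine Submodule.finrank_mono (span_mono ?_)
    rintro _ ⟨⟨c, i, a, ha⟩, rfl⟩
    refine ⟨(c, ⟨i, a⟩), ?_⟩
    beta_reduce
    rw [← pure_single]
    refine congrArg pure (funext fun l => ?_)
    by_cases hl : l = i
    · subst hl
      simp [F]
    · simp [F, update_of_ne hl]
  · intro x
    have := finrank_range_le_card (R := ℂ) fun q : C × Σ i : L, κ i => sv e L q x
    rw [Fintype.card_prod, Fintype.card_sigma,
      Finset.sum_coe_sort L fun i => Fintype.card (κ i)] at this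
    exact this

omit [∀ i, Fintype (κ i)] [∀ i, DecidableEq (κ i)] in
/-- The sum over a fibre of a sum map has rank at most the order of the group. -/
lemma rank_code [Nonempty ι] {G : Type} [AddCommGroup G] [Fintype G] [DecidableEq G]
    {H : ι → Type} [∀ i, Fintype (H i)] (φ : ∀ i, H i → G) {g : ℕ}
    (p : Fin g → ∀ i, H i → κ i → ℂ) :
    RankLE (∑ q : Fin g × {c : ∀ i, H i // ∑ i, φ i (c i) = 0},
      pure fun l => p q.1 l (q.2.1 l)) (g * Fintype.card G) := by
  have h := (rankLE_of_fintype fun (q : Fin g × AddChar G ℂ) i (a : κ i) =>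
    ∑ h, q.2 (φ i h) * p q.1 i h a).smul (Fintype.card G : ℂ)⁻¹
  rw [Fintype.card_prod, Fintype.card_fin, AddChar.card_eq] at h
  refine (congrArg (fun X => RankLE X _) ?_).mp h
  funext j
  simp only [Fintype.sum_prod_type, Finset.sum_apply, Pi.smul_apply, smul_eq_mul, pure,
    Finset.mul_sum]
  refine Finset.sum_congr rfl fun k _ => ?_
  have e1 : ∀ (ψ : AddChar G ℂ) (c : ∀ i, H i), ∏ i, ψ (φ i (c i)) = ψ (∑ i, φ i (c i)) :=
    fun ψ c => by
      have := map_prod ψ.toMonoidHom (fun i => Multiplicative.ofAdd (φ i (c i))) Finset.univ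
      simpa [← ofAdd_sum] using this.symm
  have e2 : (Fintype.card G : ℂ) ≠ 0 := by exact_mod_cast Fintype.card_ne_zero
  simp only [Fintype.prod_sum, Finset.prod_mul_distrib, e1]
  rw [← Finset.mul_sum, Finset.sum_comm]
  simp only [← Finset.sum_mul, AddChar.sum_apply_eq_ite, ite_mul, zero_mul]
  rw [← Finset.sum_filter, ← Finset.mul_sum, inv_mul_cancel_left₀ e2]
  exact Finset.sum_subtype _ (by simp) _

/-- The main inequality for a group `G` sitting in the factors of `M`. -/
theorem super_step [∀ i, Nonempty (κ i)] (s : ℕ) (hs : 0 < s) (M L : Finset ι) (hM : M.Nonempty)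
    (hsM : ∀ i ∈ M, s ≤ Fintype.card (κ i)) :
    ∃ r A : ℕ, r * s = s ^ M.card ∧
      ∑ i ∈ L, (Fintype.card (κ i) - 1) ≤ A + M.card * (s - 1) ∧ (0 < A →
      ∀ X : (∀ i, κ i) → ℂ, RankLE X (((∏ i, Fintype.card (κ i)) / (r * A) +
        r * ∑ i ∈ L, Fintype.card (κ i)) * (r + s))) := by
  classical
  obtain ⟨i0, hi0⟩ := hM
  have : Nonempty ι := ⟨i0⟩
  have : NeZero s := ⟨hs.ne'⟩
  let H : ι → Type := fun i => {c : ZMod s // i ∉ M → c = 0}
  have hH : ∀ i, Fintype.card (H i) = if i ∈ M then s else 1 := fun i => by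
    by_cases hi : i ∈ M <;> simp [H, hi]
  have hHall : Fintype.card (∀ i, H i) = s ^ M.card := by
    rw [Fintype.card_pi]
    simp [hH]
  let C := {c : ∀ i, H i // ∑ i, (c i).1 = 0}
  have he : ∀ (c c' : C) i, (∀ l, l ≠ i → c.1 l = c'.1 l) → c = c' := fun c c' i h => by
    have h1 := c.2
    have h2 := c'.2
    rw [← Finset.add_sum_erase _ _ (Finset.mem_univ i)] at h1 h2
    rw [Finset.sum_congr rfl fun m hm => congrArg Subtype.val
      (h m (Finset.ne_of_mem_erase hm))] at h1
    refine Subtype.ext (funext fun l => ?_)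
    by_cases hl : l = i
    · subst hl
      exact Subtype.ext (add_right_cancel (h1.trans h2.symm))
    · exact h l hl
  have hr : Fintype.card C * s = s ^ M.card := by
    have h0 : Fintype.card (C × ZMod s) = Fintype.card C * s := by
      rw [Fintype.card_prod, ZMod.card]
    rw [← hHall, ← h0]
    refine le_antisymm (Fintype.card_le_of_injective
      (fun q => update q.1.1 i0 ⟨q.2, fun h => absurd hi0 h⟩) fun q q' h => ?_)
      (Fintype.card_le_of_injective (fun z => ((⟨update z i0
      ⟨-∑ l ∈ Finset.univ.erase i0, (z l).1, fun h => absurd hi0 h⟩, by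
        rw [← Finset.add_sum_erase _ (fun l => (update z i0 _ l).1) (Finset.mem_univ i0),
          update_self, neg_add_eq_zero]
        exact Finset.sum_congr rfl fun l hl => by
          rw [update_of_ne (Finset.ne_of_mem_erase hl)]⟩ : C), (z i0).1)) fun z z' h => ?_)
    · refine Prod.ext (he _ _ i0 fun l hl => ?_) ?_
      · simpa [update_of_ne hl] using congrFun h l
      · have h1 := congrFun h i0
        simp only [update_self] at h1
        exact congrArg Subtype.val h1
    · obtain ⟨h1, h2⟩ := Prod.ext_iff.1 h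
      funext l
      by_cases hl : l = i0
      · subst hl
        exact Subtype.ext h2
      · simpa [update_of_ne hl] using congrFun (congrArg Subtype.val h1) l
  refine ⟨Fintype.card C, ∑ i ∈ L, (Fintype.card (κ i) - Fintype.card (H i)), hr, ?_,
    fun hA X => ?_⟩
  · calc _ ≤ ∑ i ∈ L, ((Fintype.card (κ i) - Fintype.card (H i)) + if i ∈ M then s - 1 else 0) :=
          Finset.sum_le_sum fun i _ => by rw [hH]; split_ifs <;> omega
      _ ≤ _ := by
          rw [Finset.sum_add_distrib, Finset.sum_ite_mem, Finset.sum_const, smul_eq_mul]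
          exact Nat.add_le_add_left
            (Nat.mul_le_mul_right _ (Finset.card_le_card Finset.inter_subset_right)) _
  · have hC : 0 < Fintype.card C := Nat.pos_of_mul_pos_right ((pow_pos hs _).trans_eq hr.symm)
    have hf : ∀ i, Nonempty (H i ↪ κ i) := fun i => by
      refine Function.Embedding.nonempty_of_card_le ?_
      rw [hH]
      split_ifs with hi
      · exact hsM i hi
      · exact Fintype.card_pos
    obtain ⟨g, hg, x, hx, p, hp⟩ := exists_spanning_sv (κ := κ) (fun c : C => c.1) he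
      (fun i => (hf i).some) L (Nat.mul_pos hC hA)
    obtain rfl : x = fun q l => p q.1 l (q.2.1 l) := funext fun q => funext (hp q)
    refine (rankLE_of_spanning _ hx (rank_code (fun i (h : H i) => h.1) p) X).mono ?_
    rw [Fintype.card_prod, Fintype.card_fin, ZMod.card, ← mul_add]
    exact Nat.mul_le_mul_right _ hg

end Pool.Agent.P.MP_098a67_ag
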