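import Pool.Agent.P.MP_098a67_ag.Stat

/-!
Tensors in coordinates, tangent spaces of the cone of rank-one tensors, and the open mapping step.
-/

namespace Pool.Agent.P.MP_098a67_ag

open Module Submodule Function

variable {ι : Type} [Fintype ι] [DecidableEq ι] {κ : ι → Type} [∀ i, Fintype (κ i)]
  [∀ i, DecidableEq (κ i)]

/-- The pure tensor with factors `v i`. -/
def pure (v : ∀ i, κ i → ℂ) : (∀ i, κ i) → ℂ := fun j => ∏ i, v i (j i)

/-- The tensor is a sum of `r` pure tensors. -/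
def RankLE (X : (∀ i, κ i) → ℂ) (r : ℕ) : Prop :=
  ∃ v : Fin r → ∀ i, κ i → ℂ, X = ∑ k, pure (v k)

/-- Generators of the part of the tangent space at a pure tensor that moves the factors in `L`. -/
def tv (L : Finset ι) (s : Σ i : L, κ i) (x : ∀ i, κ i → ℂ) : (∀ i, κ i) → ℂ :=
  pure (update x s.1 (Pi.single s.2 1))

omit [∀ i, Fintype (κ i)] [∀ i, DecidableEq (κ i)] in
lemma pure_update (x : ∀ i, κ i → ℂ) (i : ι) (w : κ i → ℂ) (j : ∀ i, κ i) :
    pure (update x i w) j = w (j i) * ∏ l ∈ Finset.univ.erase i, x l (j l) := by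
  unfold pure
  rw [← Finset.mul_prod_erase _ _ (Finset.mem_univ i), update_self]
  congr 1
  refine Finset.prod_congr rfl fun l hl => ?_
  rw [update_of_ne (Finset.ne_of_mem_erase hl)]

omit [∀ i, Fintype (κ i)] [∀ i, DecidableEq (κ i)] in
lemma pure_eq (x : ∀ i, κ i → ℂ) (i : ι) (j : ∀ i, κ i) :
    pure x j = x i (j i) * ∏ l ∈ Finset.univ.erase i, x l (j l) := by
  rw [← pure_update, update_eq_self]

lemma pure_update_mem {L : Finset ι} (x : ∀ i, κ i → ℂ) {i : ι} (hi : i ∈ L) (w : κ i → ℂ) :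
    pure (update x i w) ∈ T (tv L) x := by
  have : pure (update x i w) = ∑ b, w b • tv L ⟨⟨i, hi⟩, b⟩ x := by
    funext j
    simp only [tv, Finset.sum_apply, Pi.smul_apply, pure_update, smul_eq_mul, Pi.single_apply]
    rw [Finset.sum_eq_single (j i)] <;> simp +contextual [eq_comm]
  rw [this]
  exact Submodule.sum_mem _ fun b _ => Submodule.smul_mem _ _ (subset_span ⟨⟨⟨i, hi⟩, b⟩, rfl⟩)

omit [DecidableEq ι] [∀ i, Fintype (κ i)] [∀ i, DecidableEq (κ i)] in
lemma rankLE_of_fintype {ρ : Type*} [Fintype ρ] (v : ρ → ∀ i, κ i → ℂ) :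
    RankLE (∑ k, pure (v k)) (Fintype.card ρ) :=
  ⟨fun k => v ((Fintype.equivFin ρ).symm k),
    (Equiv.sum_comp (Fintype.equivFin ρ).symm fun k => pure (v k)).symm⟩

omit [DecidableEq ι] [∀ i, Fintype (κ i)] [∀ i, DecidableEq (κ i)] in
lemma RankLE.add {X Y : (∀ i, κ i) → ℂ} {r s : ℕ} (hX : RankLE X r) (hY : RankLE Y s) :
    RankLE (X + Y) (r + s) := by
  obtain ⟨v, rfl⟩ := hX
  obtain ⟨w, rfl⟩ := hY
  have := rankLE_of_fintype (Sum.elim v w)
  simpa [Fintype.sum_sum_type] using this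

omit [∀ i, Fintype (κ i)] [∀ i, DecidableEq (κ i)] in
lemma RankLE.smul [Nonempty ι] {X : (∀ i, κ i) → ℂ} {r : ℕ} (hX : RankLE X r) (c : ℂ) :
    RankLE (c • X) r := by
  obtain ⟨v, rfl⟩ := hX
  obtain ⟨i⟩ := ‹Nonempty ι›
  refine ⟨fun k => update (v k) i (c • v k i), ?_⟩
  rw [Finset.smul_sum]
  refine Finset.sum_congr rfl fun k _ => ?_
  funext j
  rw [pure_update, Pi.smul_apply, pure_eq _ i]
  simp [mul_assoc]

omit [∀ i, Fintype (κ i)] [∀ i, DecidableEq (κ i)] in
lemma RankLE.mono [Nonempty ι] {X : (∀ i, κ i) → ℂ} {r s : ℕ} (hX : RankLE X r) (h : r ≤ s) :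
    RankLE X s := by
  obtain ⟨t, rfl⟩ := Nat.exists_eq_add_of_le h
  have h0 : RankLE (0 : (∀ i, κ i) → ℂ) t := by
    have := (show RankLE (κ := κ) (∑ _k : Fin t, pure 0) t from ⟨fun _ => 0, rfl⟩).smul 0
    simpa using this
  simpa using hX.add h0

omit [DecidableEq ι] [∀ i, DecidableEq (κ i)] in
lemma contDiff_sum_pure {𝕜 : Type*} [NontriviallyNormedField 𝕜] [NormedAlgebra 𝕜 ℂ]
    {ρ : Type*} [Fintype ρ] [DecidableEq ι] :
    ContDiff 𝕜 1 (fun y : ρ → ∀ i, κ i → ℂ => ∑ k, pure (y k)) := by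
  refine ContDiff.sum fun k _ => contDiff_pi.mpr fun j => ?_
  unfold pure
  refine contDiff_prod fun i _ => ?_
  exact contDiff_pi.mp (contDiff_pi.mp (contDiff_apply 𝕜 (∀ i, κ i → ℂ) k) i) (j i)

lemma tv_differentiable (L : Finset ι) (s : Σ i : L, κ i) :
    Differentiable ℂ (tv (κ := κ) L s) := by
  refine differentiable_pi.mpr fun j => ?_
  simp only [tv, pure_update]
  refine Differentiable.const_mul (diff_prod _ _ fun l _ => ?_) _
  fun_prop

/-- Open mapping step: if the tangent spaces at the points `x k` span everything and the sum of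
the points has rank at most `r`, every tensor has rank at most the number of points plus `r`. -/
lemma rankLE_of_spanning [Nonempty ι] {L : Finset ι} {ρ : Type} [Fintype ρ]
    (x : ρ → ∀ i, κ i → ℂ) (hx : W (tv L) x Finset.univ = ⊤) {r : ℕ} (hr : RankLE (∑ k, pure (x k)) r)
    (X : (∀ i, κ i) → ℂ) : RankLE X (Fintype.card ρ + r) := by
  classical
  set Φ : (ρ → ∀ i, κ i → ℂ) → (∀ i, κ i) → ℂ := fun y => ∑ k, pure (y k) with hΦ
  have hs : HasStrictFDerivAt Φ (fderiv ℂ Φ x) x :=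
    (contDiff_sum_pure (𝕜 := ℂ)).contDiffAt.hasStrictFDerivAt one_ne_zero
  have hsurj : (fderiv ℂ Φ x).range = ⊤ := by
    rw [← top_le_iff, ← hx, W_le_iff]
    intro k _
    unfold T
    rw [span_le]
    rintro _ ⟨⟨⟨i, hi⟩, b⟩, rfl⟩
    set e : ρ → ∀ i, κ i → ℂ := Pi.single k (Pi.single i (Pi.single b 1)) with he
    refine ⟨e, ?_⟩
    have h1 : HasDerivAt (fun t : ℂ => x + t • e) e 0 := by
      simpa using ((hasDerivAt_id (0 : ℂ)).smul_const e).const_add x
    have h2 : HasDerivAt (fun t : ℂ => Φ (x + t • e)) (fderiv ℂ Φ x e) 0 := by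
      refine HasFDerivAt.comp_hasDerivAt_of_eq (0 : ℂ) hs.hasFDerivAt h1 (by simp)
    have h3 : (fun t : ℂ => Φ (x + t • e)) = fun t => Φ x + t • tv L ⟨⟨i, hi⟩, b⟩ (x k) := by
      funext t
      simp only [hΦ]
      rw [← Finset.add_sum_erase _ _ (Finset.mem_univ k),
        ← Finset.add_sum_erase _ (fun k => pure (x k)) (Finset.mem_univ k), add_right_comm]
      congr 1
      · funext j
        have : (x + t • e) k = update (x k) i (x k i + t • Pi.single b 1) := by
          funext l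
          by_cases hl : l = i
          · subst hl
            simp [he]
          · simp [he, update_of_ne hl, Pi.single_eq_of_ne hl]
        rw [this, pure_update, Pi.add_apply (pure (x k)), pure_eq _ i]
        simp only [tv, Pi.smul_apply, pure_update, Pi.add_apply, smul_eq_mul]
        ring
      · refine Finset.sum_congr rfl fun l hl => ?_
        simp [he, Pi.single_eq_of_ne (Finset.ne_of_mem_erase hl)]
    have h4 : HasDerivAt (fun t : ℂ => Φ x + t • tv L ⟨⟨i, hi⟩, b⟩ (x k)) (tv L ⟨⟨i, hi⟩, b⟩ (x k)) 0 := by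
      simpa using ((hasDerivAt_id (0 : ℂ)).smul_const (tv L ⟨⟨i, hi⟩, b⟩ (x k))).const_add (Φ x)
    rw [h3] at h2
    exact h2.unique h4
  have hn : Set.range Φ ∈ nhds (Φ x) := by
    rw [← hs.map_nhds_eq_of_surj hsurj]
    exact Filter.range_mem_map
  have hc : Filter.Tendsto (fun t : ℂ => Φ x + t • X) (nhds 0) (nhds (Φ x)) := by
    have : Continuous fun t : ℂ => Φ x + t • X := by fun_prop
    simpa using this.tendsto 0
  have h5 : ∀ᶠ t in nhdsWithin (0 : ℂ) {0}ᶜ, Φ x + t • X ∈ Set.range Φ ∧ t ≠ 0 :=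
    ((hc.eventually hn).filter_mono nhdsWithin_le_nhds).and self_mem_nhdsWithin
  obtain ⟨t, ⟨y, hy⟩, ht⟩ := h5.exists
  have h6 : X = t⁻¹ • (Φ y + (-1 : ℂ) • Φ x) := by
    rw [hy]
    simp [smul_smul, ht]
  rw [h6]
  exact ((rankLE_of_fintype y).add (hr.smul _)).smul _

omit [DecidableEq ι] [∀ i, Fintype (κ i)] [∀ i, DecidableEq (κ i)] in
/-- Passing to a smaller format. -/
lemma rankLE_restrict {κ' : ι → Type} (f : ∀ i, κ i → κ' i) (g : ∀ i, κ' i → κ i)
    (hfg : ∀ i a, g i (f i a) = a) {r : ℕ} (h : ∀ X : (∀ i, κ' i) → ℂ, RankLE X r)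
    (X : (∀ i, κ i) → ℂ) : RankLE X r := by
  obtain ⟨v, hv⟩ := h fun j => X fun i => g i (j i)
  refine ⟨fun k i a => v k i (f i a), ?_⟩
  funext j
  have := congrFun hv fun i => f i (j i)
  simpa [hfg, pure] using this

/-- The slice bound. -/
lemma rankLE_slices (i : ι) (o : κ i) :
    ∃ r, r * Fintype.card (κ i) ≤ ∏ l, Fintype.card (κ l) ∧
      ∀ X : (∀ i, κ i) → ℂ, RankLE X r := by
  classical
  refine ⟨Fintype.card {j : ∀ i, κ i // j i = o}, ?_, fun X => ?_⟩
  · rw [← Fintype.card_prod, ← Fintype.card_pi]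
    refine Fintype.card_le_of_injective (fun p => update p.1.1 i p.2) ?_
    rintro ⟨⟨j, hj⟩, a⟩ ⟨⟨j', hj'⟩, a'⟩ h
    have h1 : a = a' := by simpa using congrFun h i
    have h2 : j = j' := by
      funext l
      by_cases hl : l = i
      · subst hl
        rw [hj, hj']
      · simpa [update_of_ne hl] using congrFun h l
    simp [h1, h2]
  · have := rankLE_of_fintype fun j : {j : ∀ i, κ i // j i = o} =>
      update (fun l => (Pi.single (j.1 l) 1 : κ l → ℂ)) i fun a => X (update j.1 i a)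
    convert this using 1
    funext j
    rw [Finset.sum_apply, Finset.sum_eq_single ⟨update j i o, by simp⟩]
    · rw [pure_update, Finset.prod_eq_one]
      · simp
      · intro l hl
        simp [update_of_ne (Finset.ne_of_mem_erase hl)]
    · rintro ⟨j', hj'⟩ _ hne
      rw [pure_update]
      have : ∃ l, l ≠ i ∧ j l ≠ j' l := by
        by_contra hcon
        push Not at hcon
        apply hne
        ext1
        funext l
        by_cases hl : l = i
        · subst hl
          simp [hj']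
        · simp [update_of_ne hl, hcon l hl]
      obtain ⟨l, hl, hl'⟩ := this
      rw [Finset.prod_eq_zero (Finset.mem_erase.mpr ⟨hl, Finset.mem_univ l⟩)]
      · simp
      · simp [Pi.single_eq_of_ne hl']
    · simp

omit [∀ i, DecidableEq (κ i)] in
/-- The dimension count. -/
lemma lower_bound {r : ℕ} (h : ∀ X : (∀ i, κ i) → ℂ, RankLE X r) :
    ∏ l, Fintype.card (κ l) ≤ r * ∑ l, Fintype.card (κ l) := by
  by_contra hlt
  have hd := (contDiff_sum_pure (𝕜 := ℝ) (κ := κ) (ρ := Fin r)).dense_compl_range_of_finrank_lt_finrank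
    (by
      simp only [Module.finrank_pi_fintype, Complex.finrank_real_complex, Finset.sum_const,
        Finset.card_univ, Fintype.card_fin, smul_eq_mul, Fintype.card_pi, ← Finset.sum_mul]
      rw [← mul_assoc]
      omega)
  obtain ⟨X, hX⟩ := hd.nonempty
  obtain ⟨v, hv⟩ := h X
  exact hX ⟨v, hv.symm⟩

end Pool.Agent.P.MP_098a67_ag
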