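import Pool.Agent.P.MP_098a67_ag.Super
import Pool.Agent.P.MP_098a67_ag.Lower

/-!
The maximal rank against the expected generic rank, uniformly in the order.
-/

namespace Pool.Agent.P.MP_098a67_ag

open Finset

variable {ι : Type} [DecidableEq ι]

lemma split_sum (a : ι → ℕ) (M τ : ℕ) (s : Finset ι) (hM : ∀ i ∈ s, a i ≤ M)
    (h : τ ≤ ∑ i ∈ s, a i) : ∃ t ⊆ s, ∑ i ∈ t, a i ≤ τ ∧ τ ≤ ∑ i ∈ t, a i + M := by
  induction s using Finset.induction_on with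
  | empty => exact ⟨∅, Subset.rfl, by simp, by simpa using h.trans (by simp)⟩
  | insert x s hx ih =>
    by_cases h1 : τ ≤ ∑ i ∈ s, a i
    · obtain ⟨t, ht, h2⟩ := ih (fun i hi => hM i (mem_insert_of_mem hi)) h1
      exact ⟨t, ht.trans (subset_insert _ _), h2⟩
    · rw [sum_insert hx] at h
      have := hM x (mem_insert_self _ _)
      exact ⟨s, subset_insert _ _, by omega, by omega⟩

lemma sum_le_prod (a : ι → ℕ) (s : Finset ι) : 1 + ∑ i ∈ s, a i ≤ ∏ i ∈ s, (a i + 1) := by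
  induction s using Finset.induction_on with
  | empty => simp
  | insert x s hx ih =>
    rw [sum_insert hx, prod_insert hx]
    nlinarith [Nat.zero_le (a x * ∑ i ∈ s, a i)]

lemma prod_three (a : ι → ℕ) (s : Finset ι) (a1 a2 : ℕ) (h12 : a2 ≤ a1) (h : ∀ i ∈ s, a i ≤ a2) :
    (1 + (a1 + a2 + ∑ i ∈ s, a i)) * (a2 + ∑ i ∈ s, a i) * ∑ i ∈ s, a i ≤
      60 * ((a1 + 1) * (a2 + 1) * ∏ i ∈ s, (a i + 1)) := by
  obtain ⟨t, ht, h1, h2⟩ := split_sum a a2 ((∑ i ∈ s, a i) / 3) s h (by omega)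
  have e1 := sum_sdiff (f := a) ht
  obtain ⟨u, hu, h3, h4⟩ := split_sum a a2 ((∑ i ∈ s, a i) / 3) (s \ t)
    (fun i hi => h i (sdiff_subset hi)) (by omega)
  have e2 := sum_sdiff (f := a) hu
  have p1 := sum_le_prod a t
  have p2 := sum_le_prod a u
  have p3 := sum_le_prod a ((s \ t) \ u)
  rw [← prod_sdiff ht, ← prod_sdiff hu]
  generalize ∏ i ∈ t, (a i + 1) = x at *
  generalize ∏ i ∈ u, (a i + 1) = y at *
  generalize ∏ i ∈ (s \ t) \ u, (a i + 1) = z at *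
  have q1 : 1 + a1 + ∑ i ∈ t, a i ≤ (a1 + 1) * x := by
    nlinarith [Nat.mul_le_mul_left a1 (show 1 ≤ x by omega)]
  have q2 : 1 + a2 + ∑ i ∈ u, a i ≤ (a2 + 1) * y := by
    nlinarith [Nat.mul_le_mul_left a2 (show 1 ≤ y by omega)]
  calc _ ≤ (5 * ((a1 + 1) * x)) * (4 * ((a2 + 1) * y)) * (3 * z) :=
        Nat.mul_le_mul (Nat.mul_le_mul (by omega) (by omega)) (by omega)
    _ = _ := by ring

lemma arith {K s r A B S S2 S3 P q n1 : ℕ} (hK : 1 ≤ K) (d1 : K * s ≤ r) (d2 : r ≤ 4 * K ^ 2)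
    (hA : S ≤ A + 3 * K) (hB : B ≤ 2 * S) (q0 : q * (r * A) ≤ P)
    (hP : (1 + S) * S2 * S3 ≤ 60 * P) (hS3 : 8000 * K ^ 6 ≤ S3) (hS : 8000 * K ^ 2 ≤ S)
    (e : 1 + S = n1 + S2) (hc : (K + 1) * n1 < K * (1 + S)) :
    K * ((q + r * B) * (r + s) * (1 + S)) ≤ (K + 4) * P := by
  have f1 : K * (r + s) ≤ (K + 1) * r := by linarith
  have f2 : K * (1 + S) ≤ (K + 1) * A := by
    nlinarith [Nat.mul_le_mul_left K hA]
  have f3 : K * (q * (r + s) * (1 + S)) ≤ (K + 3) * P := by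
    refine Nat.le_of_mul_le_mul_left (c := K) ?_ hK
    calc _ = q * ((K * (r + s)) * (K * (1 + S))) := by ring
      _ ≤ q * (((K + 1) * r) * ((K + 1) * A)) := Nat.mul_le_mul_left _ (Nat.mul_le_mul f1 f2)
      _ = (K + 1) ^ 2 * (q * (r * A)) := by ring
      _ ≤ (K * (K + 3)) * P := Nat.mul_le_mul (by linarith) q0
      _ = _ := by ring
  have f4 : S ≤ 2 * K * S2 := by
    rw [e] at hc
    linarith [Nat.le_mul_of_pos_left S2 hK]
  have f5 : K * (r * B * (r + s) * (1 + S)) ≤ P := by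
    refine Nat.le_of_mul_le_mul_left (c := 60) (le_trans ?_ hP) (by norm_num)
    have g1 : r + s ≤ 2 * (4 * K ^ 2) := by linarith [Nat.le_mul_of_pos_left s hK]
    have g2 : B ≤ 2 * (2 * K * S2) := by omega
    calc _ ≤ 60 * (K * (4 * K ^ 2 * (2 * (2 * K * S2)) * (2 * (4 * K ^ 2)) * (1 + S))) := by
          gcongr
      _ = (1 + S) * S2 * (7680 * K ^ 6) := by ring
      _ ≤ _ := Nat.mul_le_mul_left _ (by omega)
  calc _ = K * (q * (r + s) * (1 + S)) + K * (r * B * (r + s) * (1 + S)) := by ring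
    _ ≤ (K + 3) * P + P := Nat.add_le_add f3 f5
    _ = _ := by ring

variable [Fintype ι]

lemma exists_code (K : ℕ) (hK : 1 ≤ K) (n : ι → ℕ)
    (h : ∀ J : Finset ι, J.card ≤ 2 → 3 * K ^ 2 ≤ ∑ i ∈ Jᶜ, (n i - 1)) :
    ∃ (s : ℕ) (M : Finset ι), 0 < s ∧ M.Nonempty ∧ (∀ i ∈ M, s ≤ n i) ∧
      K * s * s ≤ s ^ M.card ∧ s ^ M.card ≤ 4 * K ^ 2 * s ∧ M.card * (s - 1) ≤ 3 * K := by
  by_cases h3 : 3 ≤ (univ.filter fun i => K ≤ n i).card
  · obtain ⟨M, hM, hc⟩ := exists_subset_card_eq h3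
    refine ⟨K, M, hK, card_pos.1 (by omega), fun i hi => (mem_filter.1 (hM hi)).2, ?_, ?_, ?_⟩
    · rw [hc]; nlinarith
    · rw [hc]; nlinarith [Nat.zero_le (K ^ 3)]
    · rw [hc]; omega
  · have h1 := h _ (by omega : (univ.filter fun i => K ≤ n i).card ≤ 2)
    have h2 : ∑ i ∈ (univ.filter fun i => K ≤ n i)ᶜ, (n i - 1) ≤
        (univ.filter fun i => 2 ≤ n i).card * K := by
      calc _ ≤ ∑ i ∈ (univ.filter fun i => K ≤ n i)ᶜ, (if 2 ≤ n i then K else 0) :=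
            sum_le_sum fun i hi => by
              have : ¬ K ≤ n i := by simpa using hi
              split_ifs <;> omega
        _ ≤ ∑ i, (if 2 ≤ n i then K else 0) := sum_le_sum_of_subset (subset_univ _)
        _ = _ := by rw [← sum_filter, sum_const, smul_eq_mul]
    have h4 : 3 * K ≤ (univ.filter fun i => 2 ≤ n i).card :=
      Nat.le_of_mul_le_mul_right (by nlinarith) hK
    have h5 : 2 ^ Nat.log 2 K ≤ K := Nat.pow_log_le_self 2 (by omega)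
    have h6 : K < 2 ^ (Nat.log 2 K + 1) := Nat.lt_pow_succ_log_self one_lt_two K
    have h7 : Nat.log 2 K < K := Nat.log_lt_self 2 (by omega)
    obtain ⟨M, hM, hc⟩ := exists_subset_card_eq
      (show Nat.log 2 K + 3 ≤ (univ.filter fun i => 2 ≤ n i).card by omega)
    refine ⟨2, M, two_pos, card_pos.1 (by omega), fun i hi => (mem_filter.1 (hM hi)).2, ?_, ?_, ?_⟩
    · rw [hc]; linarith [pow_add 2 (Nat.log 2 K) 3, pow_succ 2 (Nat.log 2 K)]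
    · rw [hc]; nlinarith [pow_add 2 (Nat.log 2 K) 3]
    · rw [hc]; omega

lemma upper_unif (K : ℕ) (hK : 1 ≤ K) (n : ι → ℕ) (hn : ∀ i, 1 ≤ n i)
    (h : ∀ J : Finset ι, J.card ≤ 2 → 8000 * K ^ 6 ≤ ∑ i ∈ Jᶜ, (n i - 1)) :
    ∃ R : ℕ, (∀ X : (∀ i, Fin (n i)) → ℂ, RankLE X R) ∧
      K * (R * (1 + ∑ i, (n i - 1))) ≤ (K + 4) * ∏ i, n i := by
  have hK6 : K ^ 2 ≤ K ^ 6 := Nat.pow_le_pow_right hK (by norm_num)
  have hK2 : K ≤ K ^ 2 := by nlinarith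
  have hne : ∀ J : Finset ι, J.card ≤ 2 → Jᶜ.Nonempty := fun J hJ =>
    nonempty_of_sum_ne_zero (f := fun i => n i - 1) (by have := h J hJ; omega)
  obtain ⟨i1, -, h1⟩ := exists_max_image _ n (hne ∅ (by simp))
  obtain ⟨i2, h21, h2⟩ := exists_max_image _ n (hne {i1} (by simp))
  have h21' : i2 ≠ i1 := by simpa using h21
  have hS3 := h {i1, i2} card_le_two
  have eS : ∑ i, (n i - 1) = (n i1 - 1) + (n i2 - 1) + ∑ i ∈ {i1, i2}ᶜ, (n i - 1) := by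
    rw [← sum_add_sum_compl {i1, i2}, sum_pair h21'.symm]
  have eP : ∏ i, n i = (n i1 - 1 + 1) * (n i2 - 1 + 1) * ∏ i ∈ {i1, i2}ᶜ, (n i - 1 + 1) := by
    simp only [Nat.sub_add_cancel (hn _)]
    rw [← prod_mul_prod_compl {i1, i2}, prod_pair h21'.symm]
  have hP := prod_three (fun i => n i - 1) {i1, i2}ᶜ (n i1 - 1) (n i2 - 1)
    (Nat.sub_le_sub_right (h1 i2 (by simp)) 1) fun i hi =>
      Nat.sub_le_sub_right (h2 i (by simp at hi ⊢; exact hi.1)) 1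
  rw [← eP, ← eS] at hP
  have : ∀ i, Nonempty (Fin (n i)) := fun i => ⟨⟨0, hn i⟩⟩
  by_cases hc : K * (1 + ∑ i, (n i - 1)) ≤ (K + 1) * n i1
  · obtain ⟨r, hr, hX⟩ := rankLE_slices (κ := fun i => Fin (n i)) i1 ⟨0, hn i1⟩
    simp only [Fintype.card_fin] at hr
    refine ⟨r, hX, ?_⟩
    calc _ = r * (K * (1 + ∑ i, (n i - 1))) := by ring
      _ ≤ r * ((K + 1) * n i1) := Nat.mul_le_mul_left _ hc
      _ = (K + 1) * (r * n i1) := by ring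
      _ ≤ _ := Nat.mul_le_mul (by omega) hr
  obtain ⟨s, M, hs, hM, hsM, c1, c2, c3⟩ := exists_code K hK n fun J hJ => by
    have := h J hJ
    omega
  obtain ⟨r, A, hr, hA, hX⟩ := super_step (κ := fun i => Fin (n i)) s hs M
    (univ.filter fun i => 2 ≤ n i) hM (by simpa using hsM)
  simp only [Fintype.card_fin] at hA hX
  have eL : ∑ i ∈ univ.filter fun i => 2 ≤ n i, (n i - 1) = ∑ i, (n i - 1) :=
    sum_filter_of_ne fun i _ hi => by omega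
  have hB : ∑ i ∈ univ.filter fun i => 2 ≤ n i, n i ≤ 2 * ∑ i, (n i - 1) := by
    rw [← eL, mul_sum]
    exact sum_le_sum fun i hi => by have := (mem_filter.1 hi).2; omega
  rw [eL] at hA
  rw [← hr] at c1 c2
  have d1 : K * s ≤ r := Nat.le_of_mul_le_mul_right c1 hs
  have d2 : r ≤ 4 * K ^ 2 := Nat.le_of_mul_le_mul_right c2 hs
  have hn1 := hn i1
  refine ⟨_, hX (by omega), arith (S2 := n i2 - 1 + ∑ i ∈ {i1, i2}ᶜ, (n i - 1)) (n1 := n i1)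
    hK d1 d2 (by omega) hB (Nat.div_mul_le_self _ _) hP hS3 (by omega) (by omega) (by omega)⟩

theorem uniform (K : ℕ) (hK : 1 ≤ K) (d : ℕ) (n : Fin d → ℕ) (hn : ∀ i, 1 ≤ n i)
    (h : ∀ J : Finset (Fin d), J.card ≤ 2 → 8000 * K ^ 6 ≤ ∑ i ∈ Jᶜ, (n i - 1)) :
    ∃ m : ℕ, IsLeast {r : ℕ | ∀ X : (∀ i, Fin (n i)) → ℂ,
        ∃ v : Fin r → ∀ i, Fin (n i) → ℂ, ∀ j, X j = ∑ k, ∏ i, v k i (j i)} m ∧
      (∏ i, (n i : ℝ)) / (1 + ∑ i, ((n i : ℝ) - 1)) ≤ m ∧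
      (m : ℝ) ≤ (1 + 4 / K) * ((∏ i, (n i : ℝ)) / (1 + ∑ i, ((n i : ℝ) - 1))) := by
  obtain ⟨R, hR, hR'⟩ := upper_unif K hK n hn h
  have hiff : ∀ (X : (∀ i, Fin (n i)) → ℂ) (r : ℕ), RankLE X r ↔
      ∃ v : Fin r → ∀ i, Fin (n i) → ℂ, ∀ j, X j = ∑ k, ∏ i, v k i (j i) := fun X r => by
    simp [RankLE, pure, funext_iff]
  have hmem : R ∈ {r : ℕ | ∀ X : (∀ i, Fin (n i)) → ℂ,
      ∃ v : Fin r → ∀ i, Fin (n i) → ℂ, ∀ j, X j = ∑ k, ∏ i, v k i (j i)} :=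
    fun X => (hiff X R).mp (hR X)
  obtain ⟨m, hm, hm'⟩ := wellFounded_lt.has_min _ ⟨R, hmem⟩
  have hmR : m ≤ R := not_lt.1 (hm' R hmem)
  have : ∀ i, Nonempty (Fin (n i)) := fun i => ⟨⟨0, hn i⟩⟩
  have hlow := lower_sharp (κ := fun i => Fin (n i)) fun X => (hiff X _).mpr (hm X)
  simp only [Fintype.card_fin] at hlow
  refine ⟨m, ⟨hm, fun r h => not_lt.1 (hm' r h)⟩, ?_⟩
  have e : (1 + ∑ i, ((n i : ℝ) - 1)) = ((1 + ∑ i, (n i - 1) : ℕ) : ℝ) := by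
    push_cast [Nat.cast_sub (hn _)]
    rfl
  have hpos : (0 : ℝ) < ((1 + ∑ i, (n i - 1) : ℕ) : ℝ) := Nat.cast_pos.2 (by omega)
  have hK' : (0 : ℝ) < K := Nat.cast_pos.2 hK
  rw [e, ← Nat.cast_prod, div_le_iff₀ hpos, ← mul_div_assoc, le_div_iff₀ hpos]
  refine ⟨by exact_mod_cast hlow, ?_⟩
  have h2 : K * (m * (1 + ∑ i, (n i - 1))) ≤ (K + 4) * ∏ i, n i :=
    (Nat.mul_le_mul_left _ (Nat.mul_le_mul_right _ hmR)).trans hR'
  rw [one_add_div hK'.ne', div_mul_eq_mul_div, le_div_iff₀ hK', mul_comm]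
  exact_mod_cast h2

end Pool.Agent.P.MP_098a67_ag
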